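import Pool.Agent.H71.GEN.Ex

/-!
# Closed labels of one coordinate

`Lb F I k K e r w ρ P A`: the coordinate `k` is a polynomial of the time and of the coordinates in
`I`, up to `2 ^ (-P)`; the polynomial is a function of the point of resolution `r` and of the line
in the window of length `2 ^ (-w)`; its gradient is at most `2 ^ e` on the balls of radius
`2 ^ (-ρ)` around the points.
-/

set_option autoImplicit false

namespace Pool.GEN

open Finset Real MvPolynomial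
open Pool.Agent.H49.Ent Pool.Agent.H32.Dense Pool.STK Pool.KA Pool.KSAT Pool.K2S Pool.PB Pool.S6C

variable {m J : ℕ}

/-- **The conditions for a label** of the coordinate `k` over the coordinates in `I`. -/
structure LbOK (F : Fam m J) (I : Finset (Fin m)) (k : Fin m) (K e r w ρ P : ℕ) (A : F.Ω → Prop)
    {V : Type} (z : PtT F → V) (z' : LnT F → V) (G : V → MvPolynomial (Option (Fin m)) ℝ) :
    Prop where
  deg : ∀ v, (G v).totalDegree ≤ K
  dep : ∀ v, ∀ b b' : Option (Fin m) → ℝ, b none = b' none →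
    (∀ i ∈ I, b (some i) = b' (some i)) → eval b (G v) = eval b' (G v)
  cls : ∀ ω, A ω → z (ptr F r ω) = z' (slam F w ω)
  pos : ∀ ω, A ω → |F.x ω k - eval (bt F ω) (G (z' (slam F w ω)))| ≤ 1 / 2 ^ P
  vel : ∀ ω, A ω → |F.d ω k -
    ∑ o, bd F ω o * eval (bt F ω) (pderiv o (G (z' (slam F w ω))))| ≤ 2 ^ w / 2 ^ P
  lip : ∀ ω, A ω → ∀ b : Option (Fin m) → ℝ, (∀ o, |b o - bt F ω o| ≤ 1 / 2 ^ ρ) → ∀ o,
    |eval b (pderiv o (G (z' (slam F w ω))))| ≤ 2 ^ e

/-- **Closed labels of the coordinate `k` over the coordinates in `I`.** -/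
def Lb (F : Fam m J) (I : Finset (Fin m)) (k : Fin m) (K e r w ρ P : ℕ) (A : F.Ω → Prop) : Prop :=
  ∃ (V : Type) (z : PtT F → V) (z' : LnT F → V) (G : V → MvPolynomial (Option (Fin m)) ℝ),
    LbOK F I k K e r w ρ P A z z' G

/-! ### Monotonicity -/

theorem LbOK.sub {F : Fam m J} {I : Finset (Fin m)} {k : Fin m} {K e r w ρ P : ℕ}
    {A B : F.Ω → Prop} {V : Type} {z : PtT F → V} {z' : LnT F → V}
    {G : V → MvPolynomial (Option (Fin m)) ℝ} (h : LbOK F I k K e r w ρ P A z z' G)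
    (hB : Sub B A) : LbOK F I k K e r w ρ P B z z' G :=
  ⟨h.deg, h.dep, fun ω hω => h.cls ω (hB ω hω), fun ω hω => h.pos ω (hB ω hω),
    fun ω hω => h.vel ω (hB ω hω), fun ω hω => h.lip ω (hB ω hω)⟩

theorem Lb.hered (F : Fam m J) (I : Finset (Fin m)) (k : Fin m) (K e r w ρ P : ℕ) :
    Hered (Lb F I k K e r w ρ P) := by
  rintro A B hB ⟨V, z, z', G, h⟩
  exact ⟨V, z, z', G, h.sub hB⟩

theorem LbOK.mono {F : Fam m J} {I I' : Finset (Fin m)} {k : Fin m} {K K' e e' r w ρ ρ' P P' : ℕ}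
    {A : F.Ω → Prop} {V : Type} {z : PtT F → V} {z' : LnT F → V}
    {G : V → MvPolynomial (Option (Fin m)) ℝ} (h : LbOK F I k K e r w ρ P A z z' G)
    (hI : I ⊆ I') (hK : K ≤ K') (he : e ≤ e') (hρ : ρ ≤ ρ') (hP : P' ≤ P) :
    LbOK F I' k K' e' r w ρ' P' A z z' G := by
  have h1 : (1 : ℝ) / 2 ^ P ≤ 1 / 2 ^ P' := inv_mono hP
  have h2 : (2 : ℝ) ^ w / 2 ^ P ≤ 2 ^ w / 2 ^ P' :=
    div_le_div_of_nonneg_left (by positivity) (by positivity)
      (pow_le_pow_right₀ (by norm_num) hP)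
  exact ⟨fun v => (h.deg v).trans hK, fun v b b' hn hb => h.dep v b b' hn fun i hi =>
    hb i (hI hi), h.cls, fun ω hω => (h.pos ω hω).trans h1, fun ω hω => (h.vel ω hω).trans h2,
    fun ω hω b hb o => (h.lip ω hω b (fun o => (hb o).trans (inv_mono hρ)) o).trans
      (pow_le_pow_right₀ (by norm_num) he)⟩

/-- A label for windows is a label for shorter windows. -/
theorem Lb.win {F : Fam m J} {I : Finset (Fin m)} {k : Fin m} {K e r w w' ρ P : ℕ}
    {A : F.Ω → Prop} (h : Lb F I k K e r w ρ P A) (hw : w ≤ w') (hw' : w' ≤ J) :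
    Lb F I k K e r w' ρ P A := by
  obtain ⟨V, z, z', G, h⟩ := h
  refine ⟨V, z, fun s => z' (s.1, s.2.1, s.2.2 / 2 ^ (w' - w)), G, ?_⟩
  have e : ∀ ω, z' ((slam F w' ω).1, (slam F w' ω).2.1, (slam F w' ω).2.2 / 2 ^ (w' - w)) =
      z' (slam F w ω) := fun ω => by rw [← slam_coarse F hw hw' ω]
  refine ⟨h.deg, h.dep, fun ω hω => (h.cls ω hω).trans (e ω).symm, fun ω hω => ?_,
    fun ω hω => ?_, fun ω hω b hb i => ?_⟩
  · simp only [e]
    exact h.pos ω hω
  · simp only [e]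
    refine (h.vel ω hω).trans ?_
    exact div_le_div_of_nonneg_right (pow_le_pow_right₀ (by norm_num) hw) (by positivity)
  · simp only [e]
    exact h.lip ω hω b hb i

/-- A label which is visible at a resolution is visible at higher resolutions. -/
theorem LbOK.res {F : Fam m J} {I : Finset (Fin m)} {k : Fin m} {K e r r' w ρ P : ℕ}
    {A : F.Ω → Prop} {V : Type} {z : PtT F → V} {z' : LnT F → V}
    {G : V → MvPolynomial (Option (Fin m)) ℝ} (h : LbOK F I k K e r w ρ P A z z' G)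
    (hr : r ≤ r') : ∃ y : PtT F → V, LbOK F I k K e r' w ρ P A y z' G := by
  obtain ⟨φ, hφ⟩ := ptr_coarse F hr
  exact ⟨fun x => z (φ x), h.deg, h.dep, fun ω hω => by rw [← hφ ω]; exact h.cls ω hω,
    h.pos, h.vel, h.lip⟩

/-- **All monotonicities.** -/
theorem Lb.mono {F : Fam m J} {I I' : Finset (Fin m)} {k : Fin m}
    {K K' e e' r r' w w' ρ ρ' P P' : ℕ} {A : F.Ω → Prop} (h : Lb F I k K e r w ρ P A)
    (hI : I ⊆ I') (hK : K ≤ K') (he : e ≤ e') (hr : r ≤ r') (hw : w ≤ w') (hw' : w' ≤ J)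
    (hρ : ρ ≤ ρ') (hP : P' ≤ P) : Lb F I' k K' e' r' w' ρ' P' A := by
  obtain ⟨V, z, z', G, h⟩ := h
  obtain ⟨y, h1⟩ := (h.mono hI hK he hρ hP).res hr
  exact Lb.win ⟨V, y, z', G, h1⟩ hw hw'

/-- A label with the free coordinates `I` contains labels of the other coordinates over `I`. -/
theorem LabOK.lb {F : Fam m J} {I : Finset (Fin m)} {K r w P e : ℕ} {A : F.Ω → Prop} {V : Type}
    {z : PtT F → V} {z' : LnT F → V} {G : V → Fin m → MvPolynomial (Option (Fin m)) ℝ}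
    (h : LabOK F I K r w P A z z' G) (he : (K : ℝ) ≤ 2 ^ e) (k : Fin m) :
    LbOK F I k K e r w w P A z z' (fun v => G v k) :=
  ⟨fun v => h.deg v k, fun v b b' hn hb => h.dep v k b b' hn hb, h.cls,
    fun ω hω => h.pos ω hω k, fun ω hω => h.vel ω hω k,
    fun ω hω b hb o => (h.lip ω hω b hb k o).trans he⟩

/-- Constant labels have no gradient. -/
theorem LabOK.lb_zero {F : Fam m J} {r w P e ρ : ℕ} {A : F.Ω → Prop} {V : Type}
    {z : PtT F → V} {z' : LnT F → V} {G : V → Fin m → MvPolynomial (Option (Fin m)) ℝ}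
    (h : LabOK F ∅ 0 r w P A z z' G) (k : Fin m) :
    LbOK F ∅ k 0 e r w ρ P A z z' (fun v => G v k) := by
  refine ⟨fun v => h.deg v k, fun v b b' hn hb => h.dep v k b b' hn hb, h.cls,
    fun ω hω => h.pos ω hω k, fun ω hω => h.vel ω hω k, fun ω hω b hb i => ?_⟩
  have h1 := h.deg (z' (slam F w ω)) k
  rw [Nat.le_zero, totalDegree_eq_zero_iff_eq_C] at h1
  rw [h1, pderiv_C, map_zero, abs_zero]
  positivity

/-! ### The order of the coordinates -/

/-- The coordinates before `j`, in the order `σ`. -/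
def bef (σ : Equiv.Perm (Fin m)) (j : Fin m) : Finset (Fin m) :=
  (univ.filter fun l : Fin m => l < j).image σ

theorem mem_bef {σ : Equiv.Perm (Fin m)} {j k : Fin m} : k ∈ bef σ j ↔ σ.symm k < j := by
  unfold bef
  rw [mem_image]
  constructor
  · rintro ⟨l, hl, rfl⟩
    rw [Equiv.symm_apply_apply]
    exact (mem_filter.1 hl).2
  · intro h
    exact ⟨σ.symm k, mem_filter.2 ⟨mem_univ _, h⟩, Equiv.apply_symm_apply _ _⟩

theorem bef_mono {σ : Equiv.Perm (Fin m)} {i j : Fin m} (h : i ≤ j) : bef σ i ⊆ bef σ j :=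
  fun _ hk => mem_bef.2 ((mem_bef.1 hk).trans_le h)

theorem card_bef (σ : Equiv.Perm (Fin m)) (j : Fin m) : (bef σ j).card = (j : ℕ) := by
  unfold bef
  rw [card_image_of_injective _ σ.injective]
  have : (univ.filter fun l : Fin m => l < j) = Iio j := by
    ext l
    simp
  rw [this, Fin.card_Iio]

/-- The exponent of the radius for the labels over the first `j` coordinates: the window if there
are none, the largest threshold otherwise. -/
noncomputable def rad (u : Fin m → ℝ) (w : ℝ) (j : Fin m) : ℝ :=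
  if (j : ℕ) = 0 then w else u ⟨(j : ℕ) - 1, by omega⟩

/-- **(THR)** The order of the coordinates by the smallest threshold, the thresholds `s j` at the
windows `w₁`, for all classes at most `u j ≤ s j + x` at the windows `w₂`. -/
def ThrN (m : ℕ) : Prop :=
  ∀ (S : PCl m), S.Ne → ∀ wp x : ℝ, 0 < wp → wp ≤ 1 → 0 < x →
    ∃ (w₂ : ℝ) (σ : Equiv.Perm (Fin m)) (s u : Fin m → ℝ),
    0 < w₂ ∧ w₂ ≤ wp ∧ Monotone s ∧ Monotone u ∧
    (∀ j, 0 ≤ s j ∧ s j ≤ u j ∧ w₂ ≤ u j ∧ u j ≤ s j + x ∧ u j ≤ 1) ∧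
    ∀ w₁ e₁ : ℝ, 0 < w₁ → w₁ < w₂ → 0 < e₁ → ∃ (S' : PCl m) (K₀ : ℕ), S'.Ne ∧
      (∀ (τ : ℝ) (J : ℕ) (F : Fam m J) (A : F.Ω → Prop), S'.St τ J F A → S.St τ J F A) ∧
      (∀ j, ∀ k ∉ bef σ j, Bas S' (fun J F A =>
        Lb F (bef σ j) k K₀ ⌊e₁ * J⌋₊ J ⌊w₁ * J⌋₊ ⌊rad u w₁ j * J⌋₊ ⌊s j * J⌋₊ A)) ∧
      ∀ (j : Fin m) (K : ℕ) (h : ℝ), 0 < h → u j + h ≤ 1 → Bas S' (fun J F A =>
        ¬ Lb F (bef σ j) (σ j) K ⌊w₂ * J⌋₊ J ⌊w₂ * J⌋₊ ⌊rad u w₂ j * J⌋₊ ⌊(u j + h) * J⌋₊ A)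

end Pool.GEN
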