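import Pool.Agent.H54.GN.ThrM
import Pool.Agent.H2.UST.Fr
import Pool.Agent.H71.GEN.Lip
import Pool.Agent.H72.ACT.Stm

/-!
# Active coordinates have no labels over the empty set
-/

set_option autoImplicit false

namespace Pool.GEN

open Finset Real MvPolynomial
open Pool.Agent.H49.Ent Pool.Agent.H32.Dense Pool.STK Pool.KA Pool.KSAT Pool.K2S Pool.PB Pool.S6C

variable {m J : ℕ}

/-- The derivative of a polynomial which depends on one variable only. -/
theorem pderiv_only {σ : Type} [Fintype σ] [DecidableEq σ] (P : MvPolynomial σ ℝ) (k : σ)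
    (h : ∀ b b' : σ → ℝ, b k = b' k → eval b P = eval b' P) (b b' : σ → ℝ) (hb : b k = b' k) :
    eval b (pderiv k P) = eval b' (pderiv k P) := by
  obtain ⟨g, hg⟩ : ∃ g : (σ → ℝ) → σ → Polynomial ℝ, g = fun c j =>
      if j = k then Polynomial.X else Polynomial.C (c j) := ⟨_, rfl⟩
  have hge : ∀ (c : σ → ℝ) (Q : MvPolynomial σ ℝ) (t : ℝ), (MvPolynomial.aeval (g c) Q).eval t =
      MvPolynomial.eval (Function.update c k t) Q := by
    intro c Q t
    rw [Pool.KBX.eval_aeval_poly]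
    congr 1
    congr 1
    funext j
    rw [hg]
    by_cases hj : j = k
    · subst hj
      simp
    · simp [hj]
  have hder : ∀ c : σ → ℝ, Polynomial.derivative (MvPolynomial.aeval (g c) P) =
      MvPolynomial.aeval (g c) (pderiv k P) := by
    intro c
    rw [der_aevalσ, Finset.sum_eq_single k]
    · have h2 : Polynomial.derivative (g c k) = 1 := by
        rw [hg]
        simp
      rw [h2, mul_one]
    · intro j _ hj
      have h2 : Polynomial.derivative (g c j) = 0 := by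
        rw [hg]
        simp [hj]
      rw [h2, mul_zero]
    · intro hk
      exact absurd (Finset.mem_univ k) hk
  have h1 : MvPolynomial.aeval (g b) P = MvPolynomial.aeval (g b') P := by
    refine Polynomial.funext fun t => ?_
    rw [hge, hge]
    exact h _ _ (by rw [Function.update_self, Function.update_self])
  have h2 := congrArg (Polynomial.eval (b k)) (congrArg Polynomial.derivative h1)
  rw [hder, hder, hge, hge, Function.update_eq_self, hb, Function.update_eq_self] at h2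
  exact h2

/-- A label over the empty set determines the digits of the direction. -/
theorem LbOK.ch_dir {F : Fam m J} {k : Fin m} {K e w ρ P q : ℕ} {A : F.Ω → Prop} {V : Type}
    {z : PtT F → V} {z' : LnT F → V} {G : V → MvPolynomial (Option (Fin m)) ℝ}
    (h : LbOK F ∅ k K e J w ρ P A z z' G) (hA : 0 < Pe F.p A) (hq : q + w ≤ P)
    {T : Type} (c : F.Ω → T) (φ : T → PtT F) (hφ : ∀ ω, φ (c ω) = ptr F J ω) :
    CH (Pool.Agent.H49.Ent.cond F.p A True) (fun ω => F.D q ω k) c ≤ Real.log 9 := by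
  classical
  have hl := isLaw_cond F.isLaw hA
  have hA' : ∀ ω, 0 < Pool.Agent.H49.Ent.cond F.p A True ω → A ω := by
    intro ω hω
    have := ((cond_pos_iff F.isLaw.nonneg A True ω).1 hω).2
    rw [this]
    trivial
  -- the prediction
  obtain ⟨M, hM⟩ : ∃ M : T → ℝ, M = fun s => eval
    (fun o : Option (Fin m) => match o with
      | none => ((φ s).2.1 : ℝ) / 2 ^ J
      | some _ => 0) (pderiv none (G (z (φ s)))) := ⟨_, rfl⟩
  have hdir : ∀ ω, A ω → |F.d ω k - M (c ω)| ≤ 1 / 2 ^ q := by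
    intro ω hω
    have h1 := h.vel ω hω
    rw [Fintype.sum_option] at h1
    have h2 : ∑ i, bd F ω (some i) * eval (bt F ω) (pderiv (some i) (G (z' (slam F w ω)))) = 0 :=
      Finset.sum_eq_zero fun i _ => by
        rw [pderiv_dep _ _ (fun b b' hb => h.dep _ b b' (hb none (by simp))
          fun l hl => absurd hl (notMem_empty l)), mul_zero]
    rw [h2, add_zero] at h1
    have h3 : bd F ω none = 1 := rfl
    rw [h3, one_mul, ← h.cls ω hω] at h1
    have h4 : M (c ω) = eval (bt F ω) (pderiv none (G (z (ptr F J ω)))) := by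
      rw [hM]
      simp only [hφ]
      refine pderiv_only _ _ (fun b b' hb => ?_) _ _ rfl
      exact h.dep _ b b' hb fun l hl => absurd hl (notMem_empty l)
    rw [h4]
    refine h1.trans ?_
    rw [div_le_div_iff₀ (by positivity) (by positivity), one_mul, ← pow_add]
    exact pow_le_pow_right₀ (by norm_num) (by omega)
  have h2q : (0 : ℝ) < 2 ^ q := by positivity
  have hfl : ∀ ω, 0 < Pool.Agent.H49.Ent.cond F.p A True ω →
      |((F.D q ω k : ℤ) : ℝ) - 2 ^ q * M (c ω)| ≤ 2 := by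
    intro ω hω
    have h1 := hdir ω (hA' ω hω)
    have h3 : |2 ^ q * F.d ω k - 2 ^ q * M (c ω)| ≤ 1 := by
      rw [← mul_sub, abs_mul, abs_of_pos h2q]
      calc _ ≤ 2 ^ q * (1 / 2 ^ q) := mul_le_mul_of_nonneg_left h1 h2q.le
        _ = 1 := by field_simp
    have h2 : F.D q ω k = ⌊(2 : ℝ) ^ q * F.d ω k⌋ := rfl
    rw [h2]
    have a1 := Int.floor_le ((2 : ℝ) ^ q * F.d ω k)
    have a2 := Int.lt_floor_add_one ((2 : ℝ) ^ q * F.d ω k)
    rw [abs_le] at h3 ⊢
    constructor <;> linarith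
  refine (Pool.UST.CH_near_int hl (fun ω => F.D q ω k) c (fun s => 2 ^ q * M s) hfl).trans ?_
  norm_num

/-- Coarser digits are a function of finer digits. -/
theorem D_coarse (F : Fam m J) {r r' : ℕ} (h : r ≤ r') (k : Fin m) (ω : F.Ω) :
    F.D r ω k = F.D r' ω k / 2 ^ (r' - r) := by
  have h1 : (2 : ℝ) ^ r * F.d ω k = (2 ^ r' * F.d ω k) / ((2 ^ (r' - r) : ℕ) : ℝ) := by
    have : (2 : ℝ) ^ r' = 2 ^ r * 2 ^ (r' - r) := by
      rw [← pow_add]; congr 1; omega
    rw [this]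
    push_cast
    field_simp
  change ⌊(2 : ℝ) ^ r * F.d ω k⌋ = ⌊(2 : ℝ) ^ r' * F.d ω k⌋ / 2 ^ (r' - r)
  rw [h1, Int.floor_div_natCast]
  push_cast
  rfl

/-- **An active coordinate of the direction has positive entropy given the point**, with
arbitrarily few digits. -/
theorem act_dir {S : PCl m} {κ : Fin m} {N : ℚ → ℚ → ℝ} {al : ℝ} (hal : 0 < al)
    (hQ : ActQ N al) (hB : ActB N S κ) (hpos : Bas S (fun _ F A => 0 < Pe F.p A)) {t : ℝ}
    (ht : 0 < t) : ∃ c : ℝ, 0 < c ∧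
      Bas S (fun J F A => c * J ≤ CH (Pool.Agent.H49.Ent.cond F.p A True)
        (fun ω => F.D ⌊t * J⌋₊ ω κ) (fun ω => (F.X J ω, F.W ω))) := by
  obtain ⟨g₀, hg₀, h⟩ := hQ (min (al / 2) (1 / 2)) (lt_min (by linarith) (by norm_num))
  obtain ⟨g, hg0, hg1⟩ := exists_rat_btwn (show (0 : ℝ) < min g₀ (min t 1) from
    lt_min hg₀ (lt_min ht one_pos))
  have hgt : (g : ℝ) ≤ t := hg1.le.trans ((min_le_right _ _).trans (min_le_left _ _))
  have hg1' : (g : ℝ) ≤ 1 := hg1.le.trans ((min_le_right _ _).trans (min_le_right _ _))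
  have hg0' : (0 : ℚ) < g := by exact_mod_cast hg0
  have h := h g hg0' (hg1.le.trans (min_le_left _ _)) 1
  obtain ⟨c₁, hc₁⟩ : ∃ c₁, c₁ = (al - min (al / 2) (1 / 2)) * (g : ℝ) := ⟨_, rfl⟩
  have hc₁0 : 0 < c₁ := by
    have h1 : 0 < al - min (al / 2) (1 / 2) := by
      have := min_le_left (al / 2) (1 / 2 : ℝ)
      linarith
    rw [hc₁]
    positivity
  have hN : c₁ ≤ N 0 g := by
    by_contra hcon
    push Not at hcon
    have h1 : (0 : ℕ) ∈ ((range 1).filter fun i : ℕ => N (i * (g / (1 : ℕ))) ((i + 1) *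
        (g / (1 : ℕ))) < (al - min (al / 2) (1 / 2)) * ((g : ℝ) / (1 : ℕ))) := by
      rw [mem_filter]
      refine ⟨mem_range.2 one_pos, ?_⟩
      have e1 : ((0 : ℕ) : ℚ) * (g / ((1 : ℕ) : ℚ)) = 0 := by simp
      have e2 : (((0 : ℕ) : ℚ) + 1) * (g / ((1 : ℕ) : ℚ)) = g := by simp
      rw [e1, e2, Nat.cast_one, div_one, ← hc₁]
      exact hcon
    have h2 : (1 : ℝ) ≤ (((range 1).filter fun i : ℕ => N (i * (g / (1 : ℕ))) ((i + 1) *
        (g / (1 : ℕ))) < (al - min (al / 2) (1 / 2)) * ((g : ℝ) / (1 : ℕ))).card : ℝ) := by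
      exact_mod_cast Finset.card_pos.2 ⟨0, h1⟩
    have h3 : min (al / 2) (1 / 2) ≤ 1 / 2 := min_le_right _ _
    have h4 := h2.trans h
    push_cast at h4
    linarith
  have hl2 : 0 < Real.log 2 := Real.log_pos one_lt_two
  refine ⟨c₁ / 2 * Real.log 2, by positivity, ?_⟩
  refine Bas.mono 0 (hpos.and (hB 0 g le_rfl hg0'.le (by exact_mod_cast hg1') (c₁ / 2)
    (by linarith))) ?_
  intro J _ F A hA
  obtain ⟨hA, hH⟩ := hA
  have hl := isLaw_cond F.isLaw hA
  have hJ : (0 : ℝ) ≤ J := Nat.cast_nonneg J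
  have e0 : c₁ / 2 * Real.log 2 * J ≤ (N 0 g - c₁ / 2) * Real.log 2 * J := by
    refine mul_le_mul_of_nonneg_right (mul_le_mul_of_nonneg_right ?_ hl2.le) hJ
    linarith
  refine e0.trans (hH.trans ?_)
  have e1 : CH (Pool.Agent.H49.Ent.cond F.p A True) (fun ω => F.D ⌊((g : ℚ) : ℝ) * J⌋₊ ω κ)
      (fun ω => (F.D ⌊((0 : ℚ) : ℝ) * J⌋₊ ω, (F.X J ω, F.W ω))) ≤
      CH (Pool.Agent.H49.Ent.cond F.p A True) (fun ω => F.D ⌊((g : ℚ) : ℝ) * J⌋₊ ω κ)
      (fun ω => (F.X J ω, F.W ω)) :=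
    CH_mono_cond hl.nonneg fun ω ω' _ _ h => (Prod.ext_iff.mp h).2
  refine e1.trans (CH_mono_left hl.nonneg ?_)
  intro ω ω' _ _ h
  have h1 : ⌊((g : ℚ) : ℝ) * (J : ℝ)⌋₊ ≤ ⌊t * (J : ℝ)⌋₊ :=
    Nat.floor_le_floor (mul_le_mul_of_nonneg_right hgt hJ)
  have h2 : F.D ⌊t * (J : ℝ)⌋₊ ω κ = F.D ⌊t * (J : ℝ)⌋₊ ω' κ := (Prod.ext_iff.mp h).1
  simp only
  rw [D_coarse F h1 κ ω, D_coarse F h1 κ ω', h2]

/-- A coordinate of the direction with positive entropy given the point has no labels over the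
empty set. -/
theorem noLb_of_dir {S : PCl m} {κ : Fin m} (hpos : Bas S (fun _ F A => 0 < Pe F.p A))
    (h : ∀ t : ℝ, 0 < t → ∃ c : ℝ, 0 < c ∧
      Bas S (fun J F A => c * J ≤ CH (Pool.Agent.H49.Ent.cond F.p A True)
        (fun ω => F.D ⌊t * J⌋₊ ω κ) (fun ω => (F.X J ω, F.W ω)))) : NoLb0 S κ := by
  intro t ht
  obtain ⟨c, hc0, hc⟩ := h (t / 2) (by linarith)
  obtain ⟨J₂, hJ₂⟩ := exists_nat_gt (Real.log 9 / c)
  refine ⟨min (t / 2) 1, lt_min (by linarith) one_pos, min_le_right _ _, fun K => ?_⟩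
  refine Bas.mono J₂ (hpos.and hc) ?_
  intro J hJ F A hA
  obtain ⟨hA, hH⟩ := hA
  rintro ⟨V, z, z', G, hG⟩
  have hJ0 : (0 : ℝ) ≤ J := Nat.cast_nonneg J
  have key := hG.ch_dir (q := ⌊t / 2 * J⌋₊) hA (by
      have h1 : ((⌊t / 2 * (J : ℝ)⌋₊ + ⌊min (t / 2) 1 * (J : ℝ)⌋₊ : ℕ) : ℝ) ≤ t * J := by
        push_cast
        have a1 := Nat.floor_le (show 0 ≤ t / 2 * (J : ℝ) by positivity)
        have a2 := Nat.floor_le (show 0 ≤ min (t / 2) 1 * (J : ℝ) by
          have : 0 ≤ min (t / 2) 1 := le_min (by linarith) zero_le_one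
          positivity)
        have a3 := mul_le_mul_of_nonneg_right (min_le_left (t / 2) 1) hJ0
        linarith
      exact Nat.le_floor h1)
    (fun ω => (F.X J ω, F.W ω)) (fun s => s) (fun ω => rfl)
  have h1 : (J₂ : ℝ) ≤ J := by exact_mod_cast hJ
  have h2 : Real.log 9 / c < J := lt_of_lt_of_le hJ₂ h1
  rw [div_lt_iff₀ hc0] at h2
  have h3 := hH.trans key
  linarith

/-- **An active coordinate has no labels over the empty set.** -/
theorem act_noLb {S : PCl m} {κ : Fin m} {N : ℚ → ℚ → ℝ} {al : ℝ} (hal : 0 < al)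
    (hQ : ActQ N al) (hB : ActB N S κ) (hpos : Bas S (fun _ F A => 0 < Pe F.p A)) :
    NoLb0 S κ :=
  noLb_of_dir hpos fun _ ht => act_dir hal hQ hB hpos ht

end Pool.GEN
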