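import Pool.Agent.H54.GN.ThrM

/-!
# Exact thresholds of the labels of one coordinate

`ThrX`: the order of the coordinates by the smallest threshold, the thresholds `s j` are exact: for
windows and radii tending to zero, with a modulus `d` for the absent labels.
-/

set_option autoImplicit false

namespace Pool.GEN

open Finset Real MvPolynomial
open Pool.Agent.H49.Ent Pool.Agent.H32.Dense Pool.STK Pool.KA Pool.KSAT Pool.K2S Pool.PB Pool.S6C

/-- Successive choice of the coordinate with the smallest threshold. -/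
theorem order_exact {m : ℕ} (L : Finset (Fin m) → Fin m → ℝ → ℝ)
    (h0 : ∀ I k q, 0 ≤ L I k q)
    (mono : ∀ I I' k q q', I ⊆ I' → q ≤ q' → L I k q ≤ L I' k q') (κ : Fin m) :
    ∃ (σ : Equiv.Perm (Fin m)) (s : Fin m → ℝ),
      (∀ j, s j = L (bef σ j) (σ j) (rad s 0 j)) ∧
      (∀ j, ∀ k ∉ bef σ j, s j ≤ L (bef σ j) k (rad s 0 j)) ∧ Monotone s ∧
      ((∀ k, L ∅ κ 0 ≤ L ∅ k 0) → ∀ j : Fin m, (j : ℕ) = 0 → σ j = κ) := by
  classical
  have : Nonempty (Fin m) := ⟨κ⟩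
  have pick : ∀ p : Finset (Fin m) × ℝ, ∃ k : Fin m,
      (p.1 ≠ univ → k ∉ p.1 ∧ ∀ k' ∉ p.1, L p.1 k p.2 ≤ L p.1 k' p.2) ∧
      (p.1 = ∅ → p.2 = 0 → (∀ k, L ∅ κ 0 ≤ L ∅ k 0) → k = κ) := by
    intro p
    by_cases hp : p.1 = univ
    · refine ⟨κ, fun h => absurd hp h, fun _ _ _ => rfl⟩
    · by_cases hp0 : p.1 = ∅ ∧ p.2 = 0 ∧ ∀ k, L ∅ κ 0 ≤ L ∅ k 0
      · obtain ⟨a1, a2, a3⟩ := hp0
        refine ⟨κ, fun _ => ⟨by rw [a1]; exact notMem_empty _, fun k' _ => ?_⟩,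
          fun _ _ _ => rfl⟩
        rw [a1, a2]
        exact a3 k'
      · have hne : (univ.filter fun k => k ∉ p.1).Nonempty := by
          by_contra hcon
          rw [Finset.not_nonempty_iff_eq_empty, Finset.filter_eq_empty_iff] at hcon
          refine hp (Finset.eq_univ_iff_forall.2 fun k => ?_)
          by_contra hk
          exact hcon (mem_univ k) hk
        obtain ⟨k, hk, hmin⟩ := Finset.exists_min_image _ (fun k => L p.1 k p.2) hne
        exact ⟨k, fun _ => ⟨(mem_filter.1 hk).2, fun k' hk' =>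
          hmin k' (mem_filter.2 ⟨mem_univ _, hk'⟩)⟩, fun a1 a2 a3 => absurd ⟨a1, a2, a3⟩ hp0⟩
  choose kk hk hkκ using pick
  obtain ⟨st, hst⟩ : ∃ st : ℕ → Finset (Fin m) × ℝ,
    st = fun n => Nat.rec ((∅ : Finset (Fin m)), (0 : ℝ))
      (fun _ p => (insert (kk p) p.1, L p.1 (kk p) p.2)) n := ⟨_, rfl⟩
  have st0 : st 0 = (∅, 0) := by rw [hst]; rfl
  have st1 : ∀ n, st (n + 1) = (insert (kk (st n)) (st n).1,
      L (st n).1 (kk (st n)) (st n).2) := by
    intro n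
    rw [hst]
  have hcard : ∀ n ≤ m, (st n).1.card = n := by
    intro n
    induction n with
    | zero => intro _; rw [st0]; rfl
    | succ n ih =>
      intro hn
      have ih' := ih (by omega)
      have hne : (st n).1 ≠ univ := by
        intro h
        rw [h, card_univ, Fintype.card_fin] at ih'
        omega
      rw [st1]
      simp only
      rw [card_insert_of_notMem (hk _ hne).1, ih']
  have hne : ∀ n < m, (st n).1 ≠ univ := by
    intro n hn h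
    have := hcard n hn.le
    rw [h, card_univ, Fintype.card_fin] at this
    omega
  have hmemlt : ∀ n l, l < n → kk (st l) ∈ (st n).1 := by
    intro n
    induction n with
    | zero => intro l hl; omega
    | succ n ih =>
      intro l hl
      rw [st1]
      simp only
      rcases Nat.lt_or_ge l n with h | h
      · exact mem_insert_of_mem (ih l h)
      · have : l = n := by omega
        rw [this]
        exact mem_insert_self _ _
  have hinj : Function.Injective (fun j : Fin m => kk (st j)) := by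
    intro i j hij
    simp only at hij
    rcases lt_trichotomy (i : ℕ) j with h | h | h
    · exfalso
      have := hmemlt j i h
      rw [hij] at this
      exact (hk _ (hne j j.2)).1 this
    · exact Fin.ext h
    · exfalso
      have := hmemlt i j h
      rw [← hij] at this
      exact (hk _ (hne i i.2)).1 this
  obtain ⟨σ, hσ⟩ : ∃ σ : Equiv.Perm (Fin m), ∀ j : Fin m, σ j = kk (st j) :=
    ⟨Equiv.ofBijective _ (Finite.injective_iff_bijective.1 hinj), fun _ => rfl⟩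
  have hbef : ∀ j : Fin m, bef σ j = (st j).1 := by
    intro j
    refine Finset.eq_of_subset_of_card_le ?_ ?_
    · intro k hk'
      unfold bef at hk'
      obtain ⟨l, hl, rfl⟩ := mem_image.1 hk'
      rw [hσ]
      exact hmemlt j l (mem_filter.1 hl).2
    · rw [card_bef, hcard j j.2.le]
  obtain ⟨s, hs⟩ : ∃ s : Fin m → ℝ, s = fun j : Fin m => (st (j + 1)).2 := ⟨_, rfl⟩
  have hrad : ∀ j : Fin m, rad s 0 j = (st j).2 := by
    intro j
    unfold rad
    split_ifs with h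
    · rw [h, st0]
    · obtain ⟨i, hi⟩ : ∃ i, (j : ℕ) = i + 1 := ⟨(j : ℕ) - 1, by omega⟩
      rw [hs]
      simp only [hi, Nat.add_sub_cancel]
  have hsj : ∀ j : Fin m, s j = L (st j).1 (kk (st j)) (st j).2 := by
    intro j
    rw [hs]
    simp only
    rw [st1]
  have hmon : ∀ n < m, (st n).2 ≤ (st (n + 1)).2 := by
    intro n
    induction n with
    | zero =>
      intro _
      rw [st1, st0]
      exact h0 _ _ _
    | succ n ih =>
      intro hn
      have h1 := ih (by omega)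
      have hn1 := (hk _ (hne (n + 1) hn)).1
      have hsub : (st n).1 ⊆ (st (n + 1)).1 := by
        rw [st1]
        exact subset_insert _ _
      have hn2 : kk (st (n + 1)) ∉ (st n).1 := fun h => hn1 (hsub h)
      have e1 : (st (n + 1)).2 = L (st n).1 (kk (st n)) (st n).2 := by rw [st1 n]
      have e2 : (st (n + 1 + 1)).2 = L (st (n + 1)).1 (kk (st (n + 1))) (st (n + 1)).2 := by
        rw [st1 (n + 1)]
      rw [e2, e1, ← e1]
      refine e1.le.trans (((hk _ (hne n (by omega))).2 _ hn2).trans ?_)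
      exact mono _ _ _ _ _ hsub h1
  refine ⟨σ, s, ?_, ?_, ?_, ?_⟩
  · intro j
    rw [hsj, hbef, hσ, hrad]
  · intro j k hkj
    rw [hsj, hbef, hrad]
    rw [hbef] at hkj
    exact (hk _ (hne j j.2)).2 k hkj
  · have key : ∀ a b : ℕ, a ≤ b → b < m → (st (a + 1)).2 ≤ (st (b + 1)).2 := by
      intro a b hab
      induction b, hab using Nat.le_induction with
      | base => exact fun _ => le_rfl
      | succ n hn ih => exact fun h => (ih (by omega)).trans (hmon (n + 1) h)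
    intro a b hab
    rw [hs]
    exact key a b hab b.2
  · intro hκ j hj
    rw [hσ, hj]
    exact hkκ _ (by rw [st0]) (by rw [st0]) hκ

/-- **(THR), exact form.** -/
def ThrX (m : ℕ) : Prop :=
  ∀ S : PCl m, S.Ne → ∀ κ : Fin m, ∃ (σ : Equiv.Perm (Fin m)) (s : Fin m → ℝ) (d : ℕ → ℝ),
    Monotone s ∧ (∀ j, 0 ≤ s j ∧ s j ≤ 1) ∧ (∀ l, 0 < d l ∧ d l ≤ 1 / ((l : ℝ) + 1)) ∧
    (NoLb0 S κ → ∀ j : Fin m, (j : ℕ) = 0 → σ j = κ ∧ s j = 0) ∧
    ∀ w₁ e₁ : ℝ, 0 < w₁ → w₁ ≤ 1 → 0 < e₁ → ∃ (S' : PCl m) (K₀ : ℕ), S'.Ne ∧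
      (∀ (τ : ℝ) (J : ℕ) (F : Fam m J) (A : F.Ω → Prop), S'.St τ J F A → S.St τ J F A) ∧
      (∀ j, ∀ k ∉ bef σ j, Bas S' (fun J F A =>
        Lb F (bef σ j) k K₀ ⌊e₁ * J⌋₊ J ⌊w₁ * J⌋₊ ⌊min (rad s 0 j + e₁) 1 * J⌋₊
          ⌊(s j - e₁) * J⌋₊ A)) ∧
      ∀ (j : Fin m) (l K : ℕ), s j + 1 / ((l : ℝ) + 1) ≤ 1 → Bas S' (fun J F A =>
        ¬ Lb F (bef σ j) (σ j) K ⌊d l * J⌋₊ J ⌊d l * J⌋₊ ⌊(rad s 0 j + d l) * J⌋₊
          ⌊(s j + 1 / ((l : ℝ) + 1)) * J⌋₊ A)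

/-- **The limits of the thresholds** at the windows tending to zero, for all classes, sets,
coordinates and rational radii. -/
theorem lam_exists {m : ℕ} (S : PCl m) (hS : S.Ne) (κ₀ : Fin m) :
    ∃ (S' : PCl m) (lam : Finset (Fin m) → Fin m → ℚ → ℝ), S'.Ne ∧
      (∀ (τ : ℝ) (J : ℕ) (F : Fam m J) (A : F.Ω → Prop), S'.St τ J F A → S.St τ J F A) ∧
      (∀ I k q, 0 ≤ lam I k q) ∧ (∀ I k q, lam I k q ≤ 1) ∧
      (∀ I I' k q q', I ⊆ I' → q ≤ q' → lam I k q ≤ lam I' k q') ∧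
      (∀ k, ∀ δ > 0, ∃ q : ℚ, 0 < q ∧ lam ∅ k q ≤ lam ∅ k 0 + δ) ∧
      (∀ κ, NoLb0 S κ → lam ∅ κ 0 ≤ 0) ∧
      (∀ (I : Finset (Fin m)) (k : Fin m) (q : ℚ) (e : ℝ), 0 < e → ∀ w₁ e₁ : ℝ, 0 < w₁ → w₁ ≤ 1 → 0 < e₁ → ∃ K, Bas S' (fun J F A =>
        Lb F I k K ⌊e₁ * J⌋₊ J ⌊w₁ * J⌋₊ ⌊max (q : ℝ) w₁ * J⌋₊ ⌊(lam I k q - e) * J⌋₊ A)) ∧
      (∀ (I : Finset (Fin m)) (k : Fin m) (q : ℚ) (h : ℝ), lam I k q < h → h ≤ 1 → ∃ w : ℝ, 0 < w ∧ w ≤ 1 ∧ ∀ K,
        Bas S' (fun J F A =>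
          ¬ Lb F I k K ⌊w * J⌋₊ J ⌊w * J⌋₊ ⌊max (q : ℝ) w * J⌋₊ ⌊h * J⌋₊ A)) := by
  classical
  have : Nonempty (Fin m) := ⟨κ₀⟩
  -- the windows
  obtain ⟨wi, hwi⟩ : ∃ wi : ℕ → ℝ, wi = fun i : ℕ => 1 / ((i : ℝ) + 1) := ⟨_, rfl⟩
  have wpos : ∀ i, 0 < wi i := by
    intro i
    rw [hwi]
    positivity
  have wanti : ∀ i i', i ≤ i' → wi i' ≤ wi i := by
    intro i i' h
    rw [hwi]
    have : (i : ℝ) ≤ i' := by exact_mod_cast h
    exact one_div_le_one_div_of_le (by positivity) (by linarith)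
  have wle1 : ∀ i, wi i ≤ 1 := by
    intro i
    have h := wanti 0 i (Nat.zero_le i)
    have e : wi 0 = 1 := by rw [hwi]; simp
    rwa [e] at h
  have wsmall : ∀ δ > 0, ∃ i, wi i < δ := by
    intro δ hδ
    obtain ⟨i, hi⟩ := exists_nat_one_div_lt hδ
    exact ⟨i, by rw [hwi]; exact hi⟩
  -- the thresholds
  obtain ⟨f, hf⟩ := exists_surjective_nat (Finset (Fin m) × Fin m × ℕ × ℕ × ℚ)
  obtain ⟨s, S', h01, hsub, hne, hatt, hno, -⟩ := ext S hS
    (fun n => tqn m (f n).1 (f n).2.1 (f n).2.2.1 (wi (f n).2.2.2.1) (f n).2.2.2.2)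
  obtain ⟨g, hg⟩ : ∃ g : Finset (Fin m) × Fin m × ℕ × ℕ × ℚ → ℕ, ∀ a, f (g a) = a :=
    ⟨Function.surjInv hf, Function.surjInv_eq hf⟩
  obtain ⟨th, hth⟩ : ∃ th : Finset (Fin m) → Fin m → ℕ → ℕ → ℚ → ℝ,
    th = fun I k K i q => s (g (I, k, K, i, q)) := ⟨_, rfl⟩
  have th0 : ∀ I k K i q, 0 ≤ th I k K i q := fun I k K i q => by rw [hth]; exact (h01 _).1
  have th1 : ∀ I k K i q, th I k K i q ≤ 1 := fun I k K i q => by rw [hth]; exact (h01 _).2
  have att : ∀ (I : Finset (Fin m)) (k : Fin m) (K i : ℕ) (q : ℚ), ∀ τ > 0,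
      Bas S' ((tqn m I k K (wi i) q).Q (th I k K i q - τ)) := by
    intro I k K i q τ hτ
    obtain ⟨n, hn⟩ : ∃ n, n = g (I, k, K, i, q) := ⟨_, rfl⟩
    have hfn : f n = (I, k, K, i, q) := by rw [hn, hg]
    have hg0 : (0 : ℝ) < (n : ℝ) + 1 := by positivity
    refine ⟨min τ (1 / ((n : ℝ) + 1)), lt_min hτ (by positivity), 0, fun J _ F A hA => ?_⟩
    have h2 := hatt n (min τ (1 / ((n : ℝ) + 1))) J F A (by
      calc _ ≤ ((n : ℝ) + 1) * (1 / ((n : ℝ) + 1)) :=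
            mul_le_mul_of_nonneg_left (min_le_right _ _) hg0.le
        _ = 1 := by field_simp) hA
    have e : th I k K i q = s n := by rw [hth, hn]
    rw [e]
    simp only [hfn] at h2
    exact (tqn m I k K (wi i) q).anti (by linarith [min_le_left τ (1 / ((n : ℝ) + 1))]) h2
  have no : ∀ I k K i q, ∀ h : ℝ, th I k K i q < h → h ≤ 1 →
      ∃ ψ > 0, Clp S' ((tqn m I k K (wi i) q).No h ψ) := by
    intro I k K i q h h1 h2
    obtain ⟨n, hn⟩ : ∃ n, n = g (I, k, K, i, q) := ⟨_, rfl⟩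
    have hfn : f n = (I, k, K, i, q) := by rw [hn, hg]
    have e : th I k K i q = s n := by rw [hth, hn]
    rw [e] at h1
    have h3 := hno n h h1 h2
    simp only [hfn] at h3
    exact h3
  -- comparison
  have cmp : ∀ (I I' : Finset (Fin m)) (k : Fin m) (K K' i i' : ℕ) (q q' : ℚ), I ⊆ I' →
      K ≤ K' → i' ≤ i → max (q : ℝ) (wi i) ≤ max (q' : ℝ) (wi i') →
      th I k K i q ≤ th I' k K' i' q' := by
    intro I I' k K K' i i' q q' hI hK hi hq
    refine tqn_le hne (th1 I k K i q) (fun τ hτ => (att I k K i q τ hτ).clp)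
      (no I' k K' i' q') ?_
    intro J F A P h
    have hJ : (0 : ℝ) ≤ J := Nat.cast_nonneg J
    have e1 : ⌊wi i * J⌋₊ ≤ ⌊wi i' * (J : ℝ)⌋₊ :=
      Nat.floor_le_floor (mul_le_mul_of_nonneg_right (wanti _ _ hi) hJ)
    have e2 : ⌊max (q : ℝ) (wi i) * J⌋₊ ≤ ⌊max (q' : ℝ) (wi i') * (J : ℝ)⌋₊ :=
      Nat.floor_le_floor (mul_le_mul_of_nonneg_right hq hJ)
    exact h.mono hI hK e1 le_rfl e1 (fl_le (wle1 i') J) e2 le_rfl
  have cmpq : ∀ (i i' : ℕ) (q q' : ℚ), i' ≤ i → q ≤ q' →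
      max (q : ℝ) (wi i) ≤ max (q' : ℝ) (wi i') := fun i i' q q' hi hq =>
    max_le_max (by exact_mod_cast hq) (wanti _ _ hi)
  have thlow : ∀ (I : Finset (Fin m)) (k : Fin m) (K i : ℕ) (q : ℚ), wi i ≤ th I k K i q := by
    intro I k K i q
    by_contra hcon
    push Not at hcon
    have h1 : (th I k K i q + wi i) / 2 ≤ th I k K i q := by
      refine le_of_att hne (no I k K i q) (by linarith [wle1 i]) fun δ hδ => ?_
      obtain ⟨J₁, hJ₁⟩ := box_thrn m (w := wi i) (h := (th I k K i q + wi i) / 2)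
        (by linarith [th0 I k K i q, wpos i]) (by linarith) (wle1 i) hδ
      refine Clp.of one_pos J₁ fun J hJ F A _ => ?_
      obtain ⟨B, h2, h3, h4⟩ := hJ₁ J hJ F A
      exact ⟨B, h2, h3, Or.inr (h4 I k K _ _)⟩
    linarith
  -- the suprema over the classes, the limits of the windows
  have bd1 : ∀ I k i q, BddAbove (Set.range fun K => th I k K i q) := by
    intro I k i q
    exact ⟨1, by rintro y ⟨K, rfl⟩; exact th1 I k K i q⟩
  obtain ⟨Λ, hΛ⟩ : ∃ Λ : Finset (Fin m) → Fin m → ℕ → ℚ → ℝ,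
    Λ = fun I k i q => ⨆ K, th I k K i q := ⟨_, rfl⟩
  have leΛ : ∀ I k K i q, th I k K i q ≤ Λ I k i q := by
    intro I k K i q
    rw [hΛ]
    exact le_ciSup (bd1 I k i q) K
  have Λle : ∀ I k i q b, (∀ K, th I k K i q ≤ b) → Λ I k i q ≤ b := by
    intro I k i q b h
    rw [hΛ]
    exact ciSup_le h
  have Λ0 : ∀ I k i q, 0 ≤ Λ I k i q := fun I k i q => (th0 I k 0 i q).trans (leΛ I k 0 i q)
  have Λ1 : ∀ I k i q, Λ I k i q ≤ 1 := fun I k i q => Λle I k i q 1 fun K => th1 I k K i q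
  have bd2 : ∀ I k q, BddBelow (Set.range fun i => Λ I k i q) := by
    intro I k q
    exact ⟨0, by rintro y ⟨i, rfl⟩; exact Λ0 I k i q⟩
  obtain ⟨lam, hlam⟩ : ∃ lam : Finset (Fin m) → Fin m → ℚ → ℝ,
    lam = fun I k q => ⨅ i, Λ I k i q := ⟨_, rfl⟩
  have lamle : ∀ I k i q, lam I k q ≤ Λ I k i q := by
    intro I k i q
    rw [hlam]
    exact ciInf_le (bd2 I k q) i
  have lam0 : ∀ I k q, 0 ≤ lam I k q := by
    intro I k q
    rw [hlam]
    exact le_ciInf fun i => Λ0 I k i q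
  have lam1 : ∀ I k q, lam I k q ≤ 1 := fun I k q => (lamle I k 0 q).trans (Λ1 I k 0 q)
  have lammono : ∀ I I' k q q', I ⊆ I' → q ≤ q' → lam I k q ≤ lam I' k q' := by
    intro I I' k q q' hI hq
    have : lam I' k q' = ⨅ i, Λ I' k i q' := by rw [hlam]
    rw [this]
    refine le_ciInf fun i => (lamle I k i q).trans ?_
    exact Λle I k i q _ fun K => (cmp I I' k K K i i q q' hI le_rfl le_rfl
      (cmpq i i q q' le_rfl hq)).trans (leΛ I' k K i q')
  have Λanti : ∀ I k i i' q, i ≤ i' → Λ I k i' q ≤ Λ I k i q := by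
    intro I k i i' q h
    exact Λle I k i' q _ fun K => (cmp I I k K K i' i q q (Finset.Subset.refl _) le_rfl h
      (cmpq i' i q q h le_rfl)).trans (leΛ I k K i q)
  have lamlim : ∀ I k q, ∀ δ > 0, ∃ i₀, ∀ i ≥ i₀, Λ I k i q < lam I k q + δ := by
    intro I k q δ hδ
    have h1 : ⨅ i, Λ I k i q < lam I k q + δ := by
      have : lam I k q = ⨅ i, Λ I k i q := by rw [hlam]
      rw [← this]
      linarith
    obtain ⟨i₀, hi₀⟩ := exists_lt_of_ciInf_lt h1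
    exact ⟨i₀, fun i hi => (Λanti I k i₀ i q hi).trans_lt hi₀⟩
  -- continuity at the radius exponent zero
  have hcont : ∀ k, ∀ δ > 0, ∃ q : ℚ, 0 < q ∧ lam ∅ k q ≤ lam ∅ k 0 + δ := by
    intro k δ hδ
    obtain ⟨i₀, hi₀⟩ := lamlim ∅ k 0 δ hδ
    obtain ⟨q, hq0, hq1⟩ := exists_rat_btwn (wpos i₀)
    refine ⟨q, by exact_mod_cast hq0, ?_⟩
    refine (lamle ∅ k i₀ q).trans (le_trans ?_ (hi₀ i₀ le_rfl).le)
    refine Λle ∅ k i₀ q _ fun K => (cmp ∅ ∅ k K K i₀ i₀ q 0 (Finset.Subset.refl _) le_rfl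
      le_rfl ?_).trans (leΛ ∅ k K i₀ 0)
    exact max_le (hq1.le.trans (le_max_right _ _)) (le_max_right _ _)
  -- the prescribed coordinate
  have hκ0 : ∀ κ, NoLb0 S κ → lam ∅ κ 0 ≤ 0 := by
    intro κ hN
    refine le_of_forall_pos_le_add fun h hh => ?_
    obtain ⟨w, hw, hw1, hwK⟩ := hN h hh
    obtain ⟨i, hi⟩ := wsmall w hw
    refine (lamle ∅ κ i 0).trans (Λle ∅ κ i 0 _ fun K => ?_)
    by_contra hcon
    push Not at hcon
    have h1 := att ∅ κ K i 0 (th ∅ κ K i 0 - h) (by linarith)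
    have h2 := Bas.sub hsub (hwK K)
    refine Clp.not_false hne (Clp.mono (J₂ := 0) (h1.and h2).clp ?_)
    intro J _ F A hAB
    obtain ⟨hQ, hN⟩ := hAB
    have e : th ∅ κ K i 0 - (th ∅ κ K i 0 - h) = h := by ring
    rw [e] at hQ
    have hJ : (0 : ℝ) ≤ J := Nat.cast_nonneg J
    rcases hQ with hQ | hQ
    · exact absurd hQ (not_le.2 hh)
    · have e4 : max ((0 : ℚ) : ℝ) (wi i) = wi i := by
        rw [Rat.cast_zero]
        exact max_eq_right (wpos i).le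
      rw [e4] at hQ
      have h5 : ⌊wi i * (J : ℝ)⌋₊ ≤ ⌊w * (J : ℝ)⌋₊ :=
        Nat.floor_le_floor (mul_le_mul_of_nonneg_right hi.le hJ)
      exact hN (hQ.mono (Finset.Subset.refl _) le_rfl h5 le_rfl h5 (fl_le hw1 J) h5 le_rfl)
  refine ⟨S', lam, hne, hsub, lam0, lam1, lammono, hcont, hκ0, ?_, ?_⟩
  · intro I k q e he w₁ e₁ hw₁ hw₁1 he₁
    obtain ⟨i, hi⟩ := wsmall (min w₁ e₁) (lt_min hw₁ he₁)
    have hw1 : wi i ≤ w₁ := hi.le.trans (min_le_left _ _)
    have he1 : wi i ≤ e₁ := hi.le.trans (min_le_right _ _)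
    have hex : ∃ K, lam I k q - e / 2 < th I k K i q := by
      by_contra hcon
      push Not at hcon
      have h1 := Λle I k i q (lam I k q - e / 2) hcon
      have h2 := lamle I k i q
      linarith
    obtain ⟨K, hK⟩ := hex
    have h2 := thlow I k K i q
    have h3 := wpos i
    obtain ⟨τ, hτ⟩ : ∃ τ, τ = min (e / 2) (wi i / 2) := ⟨_, rfl⟩
    have hτ0 : 0 < τ := by rw [hτ]; exact lt_min (by linarith) (by linarith)
    have hτ1 : τ ≤ e / 2 := by rw [hτ]; exact min_le_left _ _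
    have hτ2 : τ ≤ wi i / 2 := by rw [hτ]; exact min_le_right _ _
    refine ⟨K, Bas.mono 0 (att I k K i q τ hτ0) ?_⟩
    intro J _ F A hQ
    have hJ : (0 : ℝ) ≤ J := Nat.cast_nonneg J
    rcases hQ with hQ | hQ
    · exfalso
      linarith
    · refine hQ.mono (Finset.Subset.refl _) le_rfl ?_ le_rfl ?_ (fl_le hw₁1 J) ?_ ?_
      · exact Nat.floor_le_floor (mul_le_mul_of_nonneg_right he1 hJ)
      · exact Nat.floor_le_floor (mul_le_mul_of_nonneg_right hw1 hJ)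
      · exact Nat.floor_le_floor (mul_le_mul_of_nonneg_right (max_le_max le_rfl hw1) hJ)
      · exact Nat.floor_le_floor (mul_le_mul_of_nonneg_right (by linarith) hJ)
  · intro I k q h hh hh1
    obtain ⟨i, hi⟩ := lamlim I k q ((h - lam I k q) / 2) (by linarith)
    refine ⟨wi i, wpos i, wle1 i, fun K => ?_⟩
    have h1 : th I k K i q < h := by
      have a1 := leΛ I k K i q
      have a2 := hi i le_rfl
      linarith
    obtain ⟨ψ, hψ, hc'⟩ := no I k K i q h h1 hh1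
    refine Bas.neg (Q := fun J F A => Lb F I k K ⌊wi i * J⌋₊ J ⌊wi i * J⌋₊
      ⌊max (q : ℝ) (wi i) * J⌋₊ ⌊h * J⌋₊ A)
      (fun J F => Lb.hered F _ _ _ _ _ _ _ _) ?_
    refine Clp.mono (J₂ := 0) hc' ?_
    intro J _ F A hN hG
    refine hN A (fun _ h => h) ?_ (Or.inr hG)
    have : Real.exp (-(ψ * J)) ≤ 1 := by
      rw [Real.exp_le_one_iff]
      have : 0 ≤ ψ * (J : ℝ) := by positivity
      linarith
    calc _ ≤ 1 * Pe F.p A := mul_le_mul_of_nonneg_right this (Pe_nonneg F.isLaw A)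
      _ = _ := one_mul _

/-- **(THR), exact form**, one subclass for all windows of the attained labels. -/
def ThrY (m : ℕ) : Prop :=
  ∀ S : PCl m, S.Ne → ∀ κ : Fin m, ∃ (σ : Equiv.Perm (Fin m)) (s : Fin m → ℝ) (d : ℕ → ℝ)
    (S' : PCl m),
    Monotone s ∧ (∀ j, 0 ≤ s j ∧ s j ≤ 1) ∧ (∀ l, 0 < d l ∧ d l ≤ 1 / ((l : ℝ) + 1)) ∧
    (NoLb0 S κ → ∀ j : Fin m, (j : ℕ) = 0 → σ j = κ ∧ s j = 0) ∧ S'.Ne ∧
      (∀ (τ : ℝ) (J : ℕ) (F : Fam m J) (A : F.Ω → Prop), S'.St τ J F A → S.St τ J F A) ∧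
    (∀ w₁ e₁ : ℝ, 0 < w₁ → w₁ ≤ 1 → 0 < e₁ → ∃ K₀ : ℕ,
      ∀ j, ∀ k ∉ bef σ j, Bas S' (fun J F A =>
        Lb F (bef σ j) k K₀ ⌊e₁ * J⌋₊ J ⌊w₁ * J⌋₊ ⌊min (rad s 0 j + e₁) 1 * J⌋₊
          ⌊(s j - e₁) * J⌋₊ A)) ∧
    ∀ (j : Fin m) (l K : ℕ), s j + 1 / ((l : ℝ) + 1) ≤ 1 → Bas S' (fun J F A =>
      ¬ Lb F (bef σ j) (σ j) K ⌊d l * J⌋₊ J ⌊d l * J⌋₊ ⌊(rad s 0 j + d l) * J⌋₊
        ⌊(s j + 1 / ((l : ℝ) + 1)) * J⌋₊ A)

theorem thry_thm (m : ℕ) : ThrY m := by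
  classical
  intro S hS κ
  have : Nonempty (Fin m) := ⟨κ⟩
  obtain ⟨S', lam, hne, hsub, l0, l1, lmono, lcont, lκ, latt, lno⟩ := lam_exists S hS κ
  -- the limits from the right
  obtain ⟨L, hL⟩ : ∃ L : Finset (Fin m) → Fin m → ℝ → ℝ,
    L = fun I k r => ⨅ q : {q : ℚ // r < (q : ℝ)}, lam I k q := ⟨_, rfl⟩
  have hnon : ∀ r : ℝ, Nonempty {q : ℚ // r < (q : ℝ)} := fun r => by
    obtain ⟨q, hq⟩ := exists_rat_gt r
    exact ⟨⟨q, hq⟩⟩
  have bdd : ∀ I k (r : ℝ), BddBelow (Set.range fun q : {q : ℚ // r < (q : ℝ)} =>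
      lam I k q) := fun I k r => ⟨0, by rintro y ⟨q, rfl⟩; exact l0 _ _ _⟩
  have Lle : ∀ I k (r : ℝ) (q : ℚ), r < q → L I k r ≤ lam I k q := by
    intro I k r q hq
    rw [hL]
    exact ciInf_le (bdd I k r) ⟨q, hq⟩
  have leL : ∀ I k (r b : ℝ), (∀ q : ℚ, r < q → b ≤ lam I k q) → b ≤ L I k r := by
    intro I k r b h
    have := hnon r
    rw [hL]
    exact le_ciInf fun q => h q q.2
  have L0 : ∀ I k r, 0 ≤ L I k r := fun I k r => leL _ _ _ _ fun q _ => l0 _ _ _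
  have L1 : ∀ I k r, L I k r ≤ 1 := by
    intro I k r
    obtain ⟨q, hq⟩ := exists_rat_gt r
    exact (Lle I k r q hq).trans (l1 _ _ _)
  have Lmono : ∀ I I' k (q q' : ℝ), I ⊆ I' → q ≤ q' → L I k q ≤ L I' k q' := by
    intro I I' k r r' hI hr
    exact leL _ _ _ _ fun q hq => (Lle I k r q (lt_of_le_of_lt hr hq)).trans
      (lmono _ _ _ _ _ hI le_rfl)
  have Llt : ∀ I k (r h : ℝ), L I k r < h → ∃ q : ℚ, r < q ∧ lam I k q < h := by
    intro I k r h hh
    by_contra hcon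
    push Not at hcon
    exact absurd (leL I k r h hcon) (not_le.2 hh)
  obtain ⟨σ, s, hs, hmin, hmono, hfirst⟩ := order_exact L L0 Lmono κ
  have hs0 : ∀ j, 0 ≤ s j := fun j => by rw [hs]; exact L0 _ _ _
  have hs1 : ∀ j, s j ≤ 1 := fun j => by rw [hs]; exact L1 _ _ _
  have hr0 : ∀ j, 0 ≤ rad s 0 j := by
    intro j
    unfold rad
    split_ifs
    · exact le_rfl
    · exact hs0 _
  have hr1 : ∀ j, rad s 0 j ≤ 1 := by
    intro j
    unfold rad
    split_ifs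
    · exact zero_le_one
    · exact hs1 _
  -- the modulus
  have hδ : ∀ (l : ℕ) (j : Fin m), ∃ δ : ℝ, 0 < δ ∧ (s j + 1 / ((l : ℝ) + 1) ≤ 1 →
      ∀ w' : ℝ, 0 < w' → w' ≤ δ → ∀ K, Bas S' (fun J F A =>
        ¬ Lb F (bef σ j) (σ j) K ⌊w' * J⌋₊ J ⌊w' * J⌋₊ ⌊(rad s 0 j + w') * J⌋₊
          ⌊(s j + 1 / ((l : ℝ) + 1)) * J⌋₊ A)) := by
    intro l j
    by_cases hl : s j + 1 / ((l : ℝ) + 1) ≤ 1
    · have hpos : (0 : ℝ) < 1 / ((l : ℝ) + 1) := by positivity
      obtain ⟨q, hq, hq1⟩ := Llt (bef σ j) (σ j) (rad s 0 j) (s j + 1 / ((l : ℝ) + 1))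
        (by rw [← hs j]; linarith)
      obtain ⟨w, hw, hw1, hwK⟩ := lno (bef σ j) (σ j) q _ hq1 hl
      refine ⟨min w (q - rad s 0 j), lt_min hw (by linarith), fun _ w' hw' hle K => ?_⟩
      refine Bas.mono 0 (hwK K) ?_
      intro J _ F A hN hG
      have hJ : (0 : ℝ) ≤ J := Nat.cast_nonneg J
      have h1 : w' ≤ w := hle.trans (min_le_left _ _)
      have h2 : w' ≤ q - rad s 0 j := hle.trans (min_le_right _ _)
      have h3 : ⌊w' * (J : ℝ)⌋₊ ≤ ⌊w * (J : ℝ)⌋₊ :=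
        Nat.floor_le_floor (mul_le_mul_of_nonneg_right h1 hJ)
      refine hN (hG.mono (Finset.Subset.refl _) le_rfl h3 le_rfl h3 (fl_le hw1 J)
        (Nat.floor_le_floor (mul_le_mul_of_nonneg_right ?_ hJ)) le_rfl)
      refine le_trans ?_ (le_max_left _ _)
      linarith
    · exact ⟨1, one_pos, fun h => absurd h hl⟩
  choose δ hδ0 hδ1 using hδ
  have hd : ∀ l : ℕ, ∃ d : ℝ, 0 < d ∧ d ≤ 1 / ((l : ℝ) + 1) ∧ ∀ j, d ≤ δ l j := by
    intro l
    obtain ⟨j0, -, hj0⟩ := Finset.exists_min_image univ (δ l) univ_nonempty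
    exact ⟨min (1 / ((l : ℝ) + 1)) (δ l j0), lt_min (by positivity) (hδ0 _ _), min_le_left _ _,
      fun j => (min_le_right _ _).trans (hj0 j (mem_univ j))⟩
  choose d hd0 hd1 hd2 using hd
  refine ⟨σ, s, d, S', hmono, fun j => ⟨hs0 j, hs1 j⟩, fun l => ⟨hd0 l, hd1 l⟩, ?_, hne,
    hsub, ?_, fun j l K hl => hδ1 l j hl (d l) (hd0 l) (hd2 l j) K⟩
  · intro hN j hj
    have h1 : L ∅ κ 0 ≤ 0 := by
      refine le_of_forall_pos_le_add fun e he => ?_
      obtain ⟨q, hq0, hq1⟩ := lcont κ e he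
      have h2 := lκ κ hN
      have h3 := Lle ∅ κ 0 q (by exact_mod_cast hq0)
      linarith
    have h2 := hfirst (fun k => h1.trans (L0 _ _ _)) j hj
    refine ⟨h2, le_antisymm ?_ (hs0 j)⟩
    have e1 : bef σ j = ∅ := by
      rw [← Finset.card_eq_zero, card_bef, hj]
    have e2 : rad s 0 j = 0 := by
      unfold rad
      rw [if_pos hj]
    rw [hs, h2, e1, e2]
    exact h1
  · intro w₁ e₁ hw₁ hw₁1 he₁
    -- the threshold at the radius one
    have hone : ∀ n : ℕ, ∀ j : Fin m, (j : ℕ) = n → ∀ k ∉ bef σ j, s j ≤ lam (bef σ j) k 1 := by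
      intro n
      induction n with
      | zero =>
        intro j hj k hk
        have e2 : rad s 0 j = 0 := by
          unfold rad
          rw [if_pos hj]
        refine (hmin j k hk).trans (Lle _ _ _ 1 ?_)
        rw [e2]
        norm_num
      | succ n ih =>
        intro j hj k hk
        rcases (hr1 j).lt_or_eq with h | h
        · exact (hmin j k hk).trans (Lle _ _ _ 1 (by push_cast; exact h))
        · have hn : n < m := by omega
          have hle : (⟨n, hn⟩ : Fin m) ≤ j := by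
            rw [Fin.le_def]
            simp only
            omega
          have h1 : s ⟨n, hn⟩ = 1 := by
            have e1 : rad s 0 j = s ⟨n, hn⟩ := by
              unfold rad
              rw [if_neg (by omega)]
              congr 1
              apply Fin.ext
              simp only
              omega
            rw [← e1, h]
          have h2 := ih ⟨n, hn⟩ rfl k (fun hh => hk (bef_mono hle hh))
          rw [h1] at h2
          exact (hs1 j).trans (h2.trans (lmono _ _ _ _ _ (bef_mono hle) le_rfl))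
    have hex : ∀ j k : Fin m, ∃ K, k ∉ bef σ j → Bas S' (fun J F A =>
        Lb F (bef σ j) k K ⌊e₁ * J⌋₊ J ⌊w₁ * J⌋₊ ⌊min (rad s 0 j + e₁) 1 * J⌋₊
          ⌊(s j - e₁) * J⌋₊ A) := by
      intro j k
      by_cases hk : k ∉ bef σ j
      · obtain ⟨q, hq0, hq1, hq2⟩ : ∃ q : ℚ, 0 < (q : ℝ) ∧ (q : ℝ) ≤ min (rad s 0 j + e₁) 1 ∧
            s j ≤ lam (bef σ j) k q := by
          rcases (hr1 j).lt_or_eq with h | h
          · obtain ⟨q, h1, h2⟩ := exists_rat_btwn (show rad s 0 j < min (rad s 0 j + e₁) 1 from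
              lt_min (by linarith) h)
            exact ⟨q, (hr0 j).trans_lt h1, h2.le, (hmin j k hk).trans (Lle _ _ _ q h1)⟩
          · refine ⟨1, by norm_num, ?_, hone j j rfl k hk⟩
            rw [h]
            push_cast
            exact le_min (by linarith) le_rfl
        have hw' : 0 < min w₁ (q : ℝ) := lt_min hw₁ hq0
        obtain ⟨K, hK⟩ := latt (bef σ j) k q (e₁ / 2) (by linarith) (min w₁ q) e₁ hw'
          ((min_le_left _ _).trans hw₁1) he₁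
        refine ⟨K, fun _ => Bas.mono 0 hK ?_⟩
        intro J _ F A hG
        have hJ : (0 : ℝ) ≤ J := Nat.cast_nonneg J
        refine hG.mono (Finset.Subset.refl _) le_rfl le_rfl le_rfl
          (Nat.floor_le_floor (mul_le_mul_of_nonneg_right (min_le_left _ _) hJ)) (fl_le hw₁1 J)
          (Nat.floor_le_floor (mul_le_mul_of_nonneg_right ?_ hJ))
          (Nat.floor_le_floor (mul_le_mul_of_nonneg_right (by linarith) hJ))
        rw [max_eq_left (min_le_right _ _)]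
        exact hq1
      · exact ⟨0, fun h => absurd h hk⟩
    choose K hK using hex
    refine ⟨univ.sup fun j => univ.sup (K j), ?_⟩
    intro j k hk
    refine Bas.mono 0 (hK j k hk) ?_
    intro J _ F A hG
    have hKle : K j k ≤ univ.sup fun j => univ.sup (K j) :=
      (Finset.le_sup (f := K j) (mem_univ k)).trans
        (Finset.le_sup (f := fun j => univ.sup (K j)) (mem_univ j))
    exact hG.mono (Finset.Subset.refl _) hKle le_rfl le_rfl le_rfl (fl_le hw₁1 J) le_rfl le_rfl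

theorem thrx_thm (m : ℕ) : ThrX m := by
  intro S hS κ
  obtain ⟨σ, s, d, S', h1, h2, h3, h4, h5, h6, h7, h8⟩ := thry_thm m S hS κ
  refine ⟨σ, s, d, h1, h2, h3, h4, fun w₁ e₁ hw hw1 he => ?_⟩
  obtain ⟨K₀, h9⟩ := h7 w₁ e₁ hw hw1 he
  exact ⟨S', K₀, h5, h6, h9, h8⟩

end Pool.GEN
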