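import Pool.Agent.H71.GEN.Stm

/-!
# The rising sun with penalty (`SunStmt`)
-/

set_option autoImplicit false

namespace Pool.GEN

open Finset Real

/-- The height `P` counted above the level `a`, as an integral of the indicator of `(a, ∞)`. -/
theorem max_sub_le {a P Q : ℝ} (h : P ≤ Q) : max (Q - a) 0 - max (P - a) 0 ≤ Q - P := by
  rcases le_total (P - a) 0 with h1 | h1 <;> rcases le_total (Q - a) 0 with h2 | h2 <;>
    simp only [max_eq_left, max_eq_right, h1, h2] <;> linarith

theorem max_sub_nonneg {a P Q : ℝ} (h : P ≤ Q) : 0 ≤ max (Q - a) 0 - max (P - a) 0 := by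
  have : max (P - a) 0 ≤ max (Q - a) 0 := max_le_max (by linarith) le_rfl
  linarith

theorem sun_thm : SunStmt := by
  intro n r hrc hrm hr0 s u hs hs0 hsu c e hc he hlt
  -- the function
  obtain ⟨φ, hφ⟩ : ∃ φ : ℝ → ℝ, φ = fun Q => ∑ j, max (Q - s j) 0 - r Q - c * Q -
      (n + 1) * ∑ j, (max (Q - s j) 0 - max (Q - u j) 0) := ⟨_, rfl⟩
  have hcont : ContinuousOn φ (Set.Icc 0 1) := by
    rw [hφ]
    refine ContinuousOn.sub (ContinuousOn.sub (ContinuousOn.sub ?_ hrc) ?_) ?_
    · exact Continuous.continuousOn (by fun_prop)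
    · exact Continuous.continuousOn (by fun_prop)
    · exact Continuous.continuousOn (by fun_prop)
  obtain ⟨Q, hQ, hmax⟩ := isCompact_Icc.exists_isMaxOn (Set.nonempty_Icc.2 zero_le_one) hcont
  have hmax' : ∀ P, 0 ≤ P → P ≤ 1 → φ P ≤ φ Q := fun P h0 h1 => hmax ⟨h0, h1⟩
  have hφ0 : φ 0 = 0 := by
    rw [hφ]
    have h1 : ∀ j, max (0 - s j) 0 = 0 := fun j => max_eq_right (by linarith [hs0 j])
    have h2 : ∀ j, max (0 - u j) 0 = 0 := fun j => max_eq_right (by linarith [hs0 j, hsu j])
    simp only [h1, h2, hr0]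
    simp
  have hn0 : (0 : ℝ) ≤ n := Nat.cast_nonneg n
  have hφ1 : 0 < φ 1 := by
    have h1 : ∑ j, (max (1 - s j) 0 - max (1 - u j) 0) ≤ e := by
      refine le_trans (Finset.sum_le_sum fun j _ => ?_) he
      have h2 : max (1 - s j) 0 ≤ max (1 - u j) 0 + (u j - s j) := by
        refine max_le ?_ ?_
        · linarith [le_max_left (1 - u j) 0]
        · linarith [le_max_right (1 - u j) 0, hsu j]
      linarith
    rw [hφ]
    simp only
    nlinarith
  have hQpos : 0 < Q := by
    rcases hQ.1.lt_or_eq with h | h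
    · exact h
    · exfalso
      have := hmax' 1 zero_le_one le_rfl
      rw [← h, hφ0] at this
      linarith
  -- the number of the live coordinates
  obtain ⟨i, hi⟩ : ∃ i : ℕ, i = (univ.filter fun j : Fin n => s j < Q).card := ⟨_, rfl⟩
  have hin : i ≤ n := by
    rw [hi]
    calc _ ≤ (univ : Finset (Fin n)).card := Finset.card_le_card (Finset.filter_subset _ _)
      _ = n := by rw [Finset.card_univ, Fintype.card_fin]
  -- the live coordinates are the first ones
  have hlow : ∀ j : Fin n, (j : ℕ) < i → s j < Q := by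
    intro j hj
    by_contra hcon
    push Not at hcon
    have h1 : (univ.filter fun j : Fin n => s j < Q) ⊆ Finset.Iio j := by
      intro k hk
      rw [Finset.mem_filter] at hk
      rw [Finset.mem_Iio]
      by_contra h2
      push Not at h2
      exact absurd hk.2 (not_lt.2 (hcon.trans (hs h2)))
    have h2 := Finset.card_le_card h1
    rw [← hi, Fin.card_Iio] at h2
    omega
  have hhigh : ∀ j : Fin n, i ≤ (j : ℕ) → Q ≤ s j := by
    intro j hj
    by_contra hcon
    push Not at hcon
    have h1 : Finset.Iic j ⊆ (univ.filter fun j : Fin n => s j < Q) := by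
      intro k hk
      rw [Finset.mem_Iic] at hk
      rw [Finset.mem_filter]
      exact ⟨Finset.mem_univ _, lt_of_le_of_lt (hs hk) hcon⟩
    have h2 := Finset.card_le_card h1
    rw [← hi, Fin.card_Iic] at h2
    omega
  -- the growth of the size
  have hgrow : ∀ P, P ≤ Q → ∑ j, max (Q - s j) 0 - ∑ j, max (P - s j) 0 ≤ i * (Q - P) := by
    intro P hP
    rw [← Finset.sum_sub_distrib]
    have h1 : ∀ j : Fin n, max (Q - s j) 0 - max (P - s j) 0 ≤ if s j < Q then Q - P else 0 := by
      intro j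
      split_ifs with h
      · exact max_sub_le hP
      · push Not at h
        rw [max_eq_right (by linarith : Q - s j ≤ 0)]
        linarith [le_max_right (P - s j) 0]
    refine (Finset.sum_le_sum fun j _ => h1 j).trans ?_
    rw [← Finset.sum_filter, Finset.sum_const, ← hi, nsmul_eq_mul]
  -- the penalty
  have hpen : ∀ P, P ≤ Q → 0 ≤ ∑ j, (max (Q - s j) 0 - max (Q - u j) 0) -
      ∑ j, (max (P - s j) 0 - max (P - u j) 0) := by
    intro P hP
    rw [← Finset.sum_sub_distrib]
    refine Finset.sum_nonneg fun j _ => ?_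
    have h1 := hsu j
    rcases le_total (P - s j) 0 with a1 | a1 <;> rcases le_total (Q - s j) 0 with a2 | a2 <;>
    rcases le_total (P - u j) 0 with a3 | a3 <;> rcases le_total (Q - u j) 0 with a4 | a4 <;>
      simp only [max_eq_left, max_eq_right, a1, a2, a3, a4] <;> linarith
  have htail : ∀ P, 0 ≤ P → P ≤ Q → r Q - r P ≤ (i - c) * (Q - P) := by
    intro P h0 hP
    have h1 := hmax' P h0 (hP.trans hQ.2)
    rw [hφ] at h1
    simp only at h1
    have h2 := hgrow P hP
    have h3 := hpen P hP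
    have h4 : (0 : ℝ) ≤ ((n : ℝ) + 1) * (∑ j, (max (Q - s j) 0 - max (Q - u j) 0) -
      ∑ j, (max (P - s j) 0 - max (P - u j) 0)) := mul_nonneg (by linarith) h3
    linarith
  have hi1 : 1 ≤ i := by
    by_contra hcon
    have h0 : i = 0 := by omega
    have h1 := htail 0 le_rfl hQpos.le
    have h2 : r 0 ≤ r Q := hrm ⟨le_rfl, zero_le_one⟩ hQ hQpos.le
    rw [h0] at h1
    push_cast at h1
    nlinarith
  refine ⟨Q, hQpos, hQ.2, i, hi1, hin, ?_, hhigh, htail⟩
  -- the row is in no bad interval
  intro j hj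
  by_contra hcon
  push Not at hcon
  have hsj := hlow j hj
  -- a lower row in the same bad interval
  obtain ⟨P, hP⟩ : ∃ P, P = max (s j) 0 := ⟨_, rfl⟩
  have hPs : P = s j := by rw [hP, max_eq_left (hs0 j)]
  have hPQ : P < Q := by rw [hPs]; exact hsj
  have h0P : 0 ≤ P := by rw [hPs]; exact hs0 j
  have h1 := hmax' P h0P (hPQ.le.trans hQ.2)
  have h2 := hgrow P hPQ.le
  have h3 : Q - P ≤ ∑ j, (max (Q - s j) 0 - max (Q - u j) 0) -
      ∑ j, (max (P - s j) 0 - max (P - u j) 0) := by
    rw [← Finset.sum_sub_distrib]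
    have h4 : ∀ k : Fin n, 0 ≤ max (Q - s k) 0 - max (Q - u k) 0 -
        (max (P - s k) 0 - max (P - u k) 0) := by
      intro k
      have h1 := hsu k
      rcases le_total (P - s k) 0 with a1 | a1 <;> rcases le_total (Q - s k) 0 with a2 | a2 <;>
      rcases le_total (P - u k) 0 with a3 | a3 <;> rcases le_total (Q - u k) 0 with a4 | a4 <;>
        simp only [max_eq_left, max_eq_right, a1, a2, a3, a4] <;> linarith
    refine le_trans ?_ (Finset.single_le_sum (fun k _ => h4 k) (Finset.mem_univ j))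
    rw [max_eq_left (by linarith : 0 ≤ Q - s j), max_eq_right (by linarith : Q - u j ≤ 0),
      hPs, max_eq_left (by linarith : 0 ≤ s j - s j),
      max_eq_right (by linarith [hsu j] : s j - u j ≤ 0)]
    linarith
  have h5 : r P ≤ r Q := hrm ⟨h0P, hPQ.le.trans hQ.2⟩ hQ hPQ.le
  rw [hφ] at h1
  simp only at h1
  have hin' : (i : ℝ) ≤ n := by exact_mod_cast hin
  have h6 : (i : ℝ) * (Q - P) ≤ n * (Q - P) := mul_le_mul_of_nonneg_right hin' (by linarith)
  have h7 : ((n : ℝ) + 1) * (Q - P) ≤ (n + 1) * (∑ j, (max (Q - s j) 0 - max (Q - u j) 0) -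
      ∑ j, (max (P - s j) 0 - max (P - u j) 0)) := mul_le_mul_of_nonneg_left h3 (by linarith)
  have h8 : 0 < c * (Q - P) := mul_pos hc (by linarith)
  have h9 : 0 < Q - P := by linarith
  nlinarith

end Pool.GEN
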