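import Pool.Agent.H71.GEN.Stm

/-!
# Thresholds of the labels (`ThrStmt`)
-/

set_option autoImplicit false

namespace Pool.GEN

open Finset Real MvPolynomial
open Pool.Agent.H49.Ent Pool.Agent.H32.Dense Pool.STK Pool.KA Pool.KSAT Pool.K2S Pool.PB Pool.S6C

/-- The property with a threshold: labels with free coordinates `I`, class `K`, windows `w`. -/
noncomputable def tq (m : ℕ) (I : Finset (Fin m)) (K : ℕ) (w : ℝ) : Thr m where
  Q s J F A := s ≤ 0 ∨ GLab F I K J ⌊w * J⌋₊ ⌊s * J⌋₊ A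
  her := by
    rintro s J F A B hB (h | h)
    · exact Or.inl h
    · exact Or.inr (GLab.hered F I K _ _ _ A B hB h)
  anti := by
    rintro s s' J F A hs (h | h)
    · exact Or.inl (hs.trans h)
    · right
      obtain ⟨V, z, z', G, h⟩ := h
      exact ⟨V, z, z', G, h.pre (Nat.floor_le_floor
        (mul_le_mul_of_nonneg_right hs (Nat.cast_nonneg J)))⟩
  triv := Or.inl

theorem fl_le {w : ℝ} (hw : w ≤ 1) (J : ℕ) : ⌊w * J⌋₊ ≤ J := by
  refine Nat.floor_le_of_le ?_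
  have : (0 : ℝ) ≤ J := Nat.cast_nonneg J
  nlinarith

/-- The trivial labels: thresholds are at least the window. -/
theorem box_thr (m : ℕ) {w h : ℝ} (h0 : 0 < h) (hw : h < w) (hw1 : w ≤ 1) {δ : ℝ} (hδ : 0 < δ) :
    ∃ J₁ : ℕ, ∀ J ≥ J₁, ∀ (F : Fam m J) (A : F.Ω → Prop), ∃ B : F.Ω → Prop, Sub B A ∧
      Real.exp (-(δ * J)) * Pe F.p A ≤ Pe F.p B ∧ GLab F ∅ 0 J ⌊w * J⌋₊ ⌊h * J⌋₊ B := by
  obtain ⟨J₁, hJ₁⟩ := exists_nat_ge (max (2 / (w - h)) (m * Real.log 5 / δ))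
  refine ⟨max J₁ 1, fun J hJ F A => ?_⟩
  have hJ1 : (J₁ : ℝ) ≤ J := by exact_mod_cast (le_max_left _ _).trans hJ
  have h1J : (1 : ℝ) ≤ J := by exact_mod_cast (le_max_right _ _).trans hJ
  have e1 : 2 / (w - h) ≤ J := (le_max_left _ _).trans (hJ₁.trans hJ1)
  have e2 : m * Real.log 5 / δ ≤ J := (le_max_right _ _).trans (hJ₁.trans hJ1)
  have hwh : 0 < w - h := by linarith
  rw [div_le_iff₀ hwh] at e1
  rw [div_le_iff₀ hδ] at e2
  have hlt : ⌊h * J⌋₊ + 1 ≤ ⌊w * J⌋₊ := by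
    apply Nat.le_floor
    have := Nat.floor_le (show 0 ≤ h * (J : ℝ) by positivity)
    push_cast
    nlinarith
  obtain ⟨B, hB, hP, hG⟩ := box_lab F (r := J) (w := ⌊w * J⌋₊) (by omega) (fl_le hw1 J)
    (fl_le hw1 J) A
  refine ⟨B, hB, ?_, ?_⟩
  · have h5 : Real.exp (-(δ * J)) * 5 ^ m ≤ 1 := by
      have h6 : (5 : ℝ) ^ m = Real.exp (m * Real.log 5) := by
        rw [mul_comm, Real.exp_mul, Real.exp_log (by norm_num), Real.rpow_natCast]
      rw [h6, ← Real.exp_add, Real.exp_le_one_iff]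
      nlinarith
    calc Real.exp (-(δ * J)) * Pe F.p A
        ≤ Real.exp (-(δ * J)) * (5 ^ m * Pe F.p B) :=
          mul_le_mul_of_nonneg_left hP (Real.exp_pos _).le
      _ = (Real.exp (-(δ * J)) * 5 ^ m) * Pe F.p B := by ring
      _ ≤ 1 * Pe F.p B := mul_le_mul_of_nonneg_right h5 (Pe_nonneg F.isLaw B)
      _ = _ := one_mul _
  · obtain ⟨V, z, z', G, hG⟩ := hG
    exact ⟨V, z, z', G, hG.pre (by omega)⟩

/-- Attained up to the defect, hence below another threshold. -/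
theorem tq_le {m : ℕ} {S : PCl m} (hS : S.Ne) {I I' : Finset (Fin m)} {K K' : ℕ} {w w' s s' : ℝ}
    (hs1 : s ≤ 1)
    (att : ∀ τ > 0, Clp S ((tq m I K w).Q (s - τ)))
    (no : ∀ h : ℝ, s' < h → h ≤ 1 → ∃ ψ > 0, Clp S ((tq m I' K' w').No h ψ))
    (imp : ∀ (J : ℕ) (F : Fam m J) (A : F.Ω → Prop) (P : ℕ),
      GLab F I K J ⌊w * J⌋₊ P A → GLab F I' K' J ⌊w' * J⌋₊ P A) : s ≤ s' := by
  by_contra hcon
  push Not at hcon
  have h1 : (s + s') / 2 ≤ s' := by
    refine le_of_att hS no (by linarith) fun δ hδ => ?_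
    refine Clp.mono (J₂ := 0) (att ((s - s') / 2) (by linarith)) ?_
    intro J _ F A hQ
    refine ⟨A, fun _ h => h, ?_, ?_⟩
    · have : Real.exp (-(δ * J)) ≤ 1 := by
        rw [Real.exp_le_one_iff]
        have : 0 ≤ δ * (J : ℝ) := by positivity
        linarith
      calc _ ≤ 1 * Pe F.p A := mul_le_mul_of_nonneg_right this (Pe_nonneg F.isLaw A)
        _ = _ := one_mul _
    · have e : s - (s - s') / 2 = (s + s') / 2 := by ring
      rw [e] at hQ
      rcases hQ with hQ | hQ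
      · exact Or.inl hQ
      · exact Or.inr (imp J F A _ hQ)
  linarith

theorem thr_thm (m : ℕ) : ThrStmt m := by
  classical
  intro S hS wp x hwp hwp1 hx
  -- the windows
  obtain ⟨N, hN⟩ := exists_nat_gt (2 * (m : ℝ) / x)
  have hN0 : (0 : ℝ) < N := lt_of_le_of_lt (by positivity) hN
  rw [div_lt_iff₀ hx] at hN
  obtain ⟨wi, hwi⟩ : ∃ wi : ℕ → ℝ, wi = fun i => wp * ((i + 1 : ℕ) / (N + 1 : ℕ)) := ⟨_, rfl⟩
  have hN1 : (0 : ℝ) < (N + 1 : ℕ) := by positivity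
  have wpos : ∀ i, 0 < wi i := by
    intro i
    rw [hwi]
    positivity
  have wlt : ∀ i, wi i < wi (i + 1) := by
    intro i
    rw [hwi]
    refine mul_lt_mul_of_pos_left ?_ hwp
    refine div_lt_div_of_pos_right ?_ hN1
    push_cast
    linarith
  have wle : ∀ i ≤ N, wi i ≤ wp := by
    intro i hi
    rw [hwi]
    have : ((i + 1 : ℕ) : ℝ) / (N + 1 : ℕ) ≤ 1 := by
      rw [div_le_one hN1]
      exact_mod_cast Nat.succ_le_succ hi
    nlinarith
  have w0le : ∀ i, wi 0 ≤ wi i := by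
    intro i
    induction i with
    | zero => exact le_rfl
    | succ n ih => exact ih.trans (wlt n).le
  -- the thresholds
  obtain ⟨f, hf⟩ := exists_surjective_nat (Finset (Fin m) × ℕ × Fin (N + 1))
  obtain ⟨s, S', h01, hsub, hne, hatt, hno, -⟩ := ext S hS
    (fun n => tq m (f n).1 (f n).2.1 (wi (f n).2.2))
  obtain ⟨g, hg⟩ : ∃ g : Finset (Fin m) × ℕ × Fin (N + 1) → ℕ, ∀ a, f (g a) = a :=
    ⟨Function.surjInv hf, Function.surjInv_eq hf⟩
  obtain ⟨th, hth⟩ : ∃ th : Finset (Fin m) → ℕ → Fin (N + 1) → ℝ,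
    th = fun I K i => s (g (I, K, i)) := ⟨_, rfl⟩
  have th0 : ∀ I K i, 0 ≤ th I K i := fun I K i => by rw [hth]; exact (h01 _).1
  have th1 : ∀ I K i, th I K i ≤ 1 := fun I K i => by rw [hth]; exact (h01 _).2
  have att : ∀ (I : Finset (Fin m)) (K : ℕ) (i : Fin (N + 1)), ∀ τ > 0, Bas S' ((tq m I K (wi i)).Q (th I K i - τ)) := by
    intro I K i τ hτ
    have hg0 : (0 : ℝ) < (g (I, K, i) : ℝ) + 1 := by positivity
    refine ⟨min τ (1 / ((g (I, K, i) : ℝ) + 1)), lt_min hτ (by positivity), 0,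
      fun J _ F A hA => ?_⟩
    have h2 := hatt (g (I, K, i)) (min τ (1 / ((g (I, K, i) : ℝ) + 1))) J F A (by
      calc _ ≤ ((g (I, K, i) : ℝ) + 1) * (1 / ((g (I, K, i) : ℝ) + 1)) :=
            mul_le_mul_of_nonneg_left (min_le_right _ _) hg0.le
        _ = 1 := by field_simp) hA
    have e := hg (I, K, i)
    rw [hth]
    simp only [e] at h2
    exact (tq m I K (wi i)).anti (by linarith [min_le_left τ (1 / ((g (I, K, i) : ℝ) + 1))]) h2
  have no : ∀ I K i, ∀ h : ℝ, th I K i < h → h ≤ 1 →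
      ∃ ψ > 0, Clp S' ((tq m I K (wi i)).No h ψ) := by
    intro I K i h h1 h2
    rw [hth] at h1
    have h3 := hno (g (I, K, i)) h h1 h2
    have e := hg (I, K, i)
    simp only [e] at h3
    exact h3
  -- comparison
  have cmp : ∀ I I' K K' (i i' : Fin (N + 1)), (∀ (J : ℕ) (F : Fam m J) (A : F.Ω → Prop) (P : ℕ),
      GLab F I K J ⌊wi i * J⌋₊ P A → GLab F I' K' J ⌊wi i' * J⌋₊ P A) →
      th I K i ≤ th I' K' i' := by
    intro I I' K K' i i' himp
    exact tq_le hne (th1 I K i) (fun τ hτ => (att I K i τ hτ).clp)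
      (no I' K' i') himp
  have hwin1 : ∀ i : Fin (N + 1), wi i ≤ 1 := fun i => (wle i (Nat.lt_succ_iff.1 i.2)).trans hwp1
  have thlow : ∀ i : Fin (N + 1), wi i ≤ th ∅ 0 i := by
    intro i
    by_contra hcon
    push Not at hcon
    have h1 : (th ∅ 0 i + wi i) / 2 ≤ th ∅ 0 i := by
      refine le_of_att hne (no ∅ 0 i) (by linarith [hwin1 i]) fun δ hδ => ?_
      obtain ⟨J₁, hJ₁⟩ := box_thr m (w := wi i) (h := (th ∅ 0 i + wi i) / 2)
        (by linarith [th0 ∅ 0 i, wpos i]) (by linarith) (hwin1 i) hδ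
      refine Clp.of one_pos J₁ fun J hJ F A _ => ?_
      obtain ⟨B, h2, h3, h4⟩ := hJ₁ J hJ F A
      exact ⟨B, h2, h3, Or.inr h4⟩
    linarith
  -- the suprema over the sets and the classes
  obtain ⟨Θ, hΘ⟩ : ∃ Θ : ℕ → Fin (N + 1) → ℝ,
    Θ = fun j i => sSup {y | ∃ (I : Finset (Fin m)) (K : ℕ), I.card = j ∧ y = th I K i} :=
    ⟨_, rfl⟩
  have bdd : ∀ j i, BddAbove {y | ∃ (I : Finset (Fin m)) (K : ℕ), I.card = j ∧ y = th I K i} := by
    intro j i
    refine ⟨1, ?_⟩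
    rintro y ⟨I, K, -, rfl⟩
    exact th1 I K i
  have exI : ∀ j ≤ m, ∃ I : Finset (Fin m), I.card = j := by
    intro j hj
    obtain ⟨I, -, hI⟩ := Finset.exists_subset_card_eq (s := (Finset.univ : Finset (Fin m)))
      (n := j) (by rw [Finset.card_univ, Fintype.card_fin]; exact hj)
    exact ⟨I, hI⟩
  have leΘ : ∀ I K i, th I K i ≤ Θ I.card i := by
    intro I K i
    rw [hΘ]
    exact le_csSup (bdd _ _) ⟨I, K, rfl, rfl⟩
  have Θle : ∀ j ≤ m, ∀ i b, (∀ I K, I.card = j → th I K i ≤ b) → Θ j i ≤ b := by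
    intro j hj i b hb
    rw [hΘ]
    obtain ⟨I, hI⟩ := exI j hj
    refine csSup_le ⟨_, I, 0, hI, rfl⟩ ?_
    rintro y ⟨I, K, hI, rfl⟩
    exact hb I K hI
  have Θ1 : ∀ j ≤ m, ∀ i, Θ j i ≤ 1 := fun j hj i => Θle j hj i 1 fun I K _ => th1 I K i
  have Θlow : ∀ j ≤ m, ∀ i : Fin (N + 1), wi i ≤ Θ j i := by
    intro j hj i
    obtain ⟨I, hI⟩ := exI j hj
    rw [← hI]
    refine (thlow i).trans (le_trans ?_ (leΘ I 1 i))
    refine cmp ∅ I 0 1 i i fun J F A P h => ?_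
    refine GLab.free ?_ (Finset.empty_subset _) le_rfl
    obtain ⟨V, z, z', G, h⟩ := h
    exact ⟨V, z, z', G, h.mK (Nat.zero_le 1)⟩
  have Θmono : ∀ j, j + 1 ≤ m → ∀ i, Θ j i ≤ Θ (j + 1) i := by
    intro j hj i
    refine Θle j (by omega) i _ fun I K hI => ?_
    obtain ⟨I', hI', hc⟩ := Finset.exists_superset_card_eq (s := I) (n := j + 1) (by omega)
      (by rw [Fintype.card_fin]; exact hj)
    rw [← hc]
    refine le_trans ?_ (leΘ I' (K + 1) i)
    refine cmp I I' K (K + 1) i i fun J F A P h => ?_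
    refine GLab.free ?_ hI' (by omega)
    obtain ⟨V, z, z', G, h⟩ := h
    exact ⟨V, z, z', G, h.mK (Nat.le_succ K)⟩
  have Θwin : ∀ j ≤ m, ∀ (i i' : Fin (N + 1)), (i : ℕ) + 1 = i' → Θ j i ≤ Θ j i' := by
    intro j hj i i' hi
    refine Θle j hj i _ fun I K hI => ?_
    rw [← hI]
    refine le_trans ?_ (leΘ I K i')
    refine cmp I I K K i i' fun J F A P h => ?_
    refine GLab.win h ?_ (fl_le (hwin1 i') J)
    refine Nat.floor_le_floor (mul_le_mul_of_nonneg_right ?_ (Nat.cast_nonneg J))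
    rw [← hi]
    exact (wlt i).le
  -- the window
  obtain ⟨i, hi⟩ : ∃ i : ℕ, ∃ h : i + 1 < N + 1, ∀ j < m,
      Θ j ⟨i + 1, h⟩ ≤ Θ j ⟨i, by omega⟩ + x / 2 := by
    by_contra hcon
    push Not at hcon
    obtain ⟨σ, hσ⟩ : ∃ σ : ℕ → ℝ, σ = fun i => if h : i < N + 1 then
      ∑ j ∈ range m, Θ j ⟨i, h⟩ else 0 := ⟨_, rfl⟩
    have key : ∀ i, i < N + 1 → (i : ℝ) * (x / 2) ≤ σ i := by
      intro i
      induction i with
      | zero =>
        intro h
        rw [hσ]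
        simp only [dif_pos h, Nat.cast_zero, zero_mul]
        refine Finset.sum_nonneg fun j hj => ?_
        exact (wpos _).le.trans (Θlow j (Finset.mem_range.1 hj).le _)
      | succ n ih =>
        intro h
        have ih' := ih (by omega)
        obtain ⟨j₀, hj₀, hlt⟩ := hcon n h
        rw [hσ] at ih' ⊢
        simp only [dif_pos h, dif_pos (show n < N + 1 by omega)] at ih' ⊢
        have h1 : ∑ j ∈ range m, Θ j ⟨n, by omega⟩ + x / 2 ≤ ∑ j ∈ range m, Θ j ⟨n + 1, h⟩ := by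
          have hm : j₀ ∈ range m := Finset.mem_range.2 hj₀
          rw [← Finset.add_sum_erase _ _ hm, ← Finset.add_sum_erase (range m)
            (fun j => Θ j ⟨n + 1, h⟩) hm]
          have h2 : ∑ j ∈ (range m).erase j₀, Θ j ⟨n, by omega⟩ ≤
              ∑ j ∈ (range m).erase j₀, Θ j ⟨n + 1, h⟩ := by
            refine Finset.sum_le_sum fun j hj => ?_
            exact Θwin j (Finset.mem_range.1 (Finset.mem_of_mem_erase hj)).le _ _ rfl
          linarith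
        push_cast
        linarith
    have h1 := key N (by omega)
    rw [hσ] at h1
    simp only [dif_pos (show N < N + 1 by omega)] at h1
    have h2 : ∑ j ∈ range m, Θ j ⟨N, by omega⟩ ≤ m := by
      calc _ ≤ ∑ j ∈ range m, (1 : ℝ) := Finset.sum_le_sum fun j hj =>
            Θ1 j (Finset.mem_range.1 hj).le _
        _ = m := by simp
    linarith
  obtain ⟨hi1, hi⟩ := hi
  obtain ⟨i₁, hi₁⟩ : ∃ i₁ : Fin (N + 1), i₁ = ⟨i, by omega⟩ := ⟨_, rfl⟩
  obtain ⟨i₂, hi₂⟩ : ∃ i₂ : Fin (N + 1), i₂ = ⟨i + 1, hi1⟩ := ⟨_, rfl⟩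
  rw [← hi₂] at hi
  rw [← hi₁] at hi
  obtain ⟨e, he⟩ : ∃ e : ℝ, e = min (wi 0 / 4) (x / 8) := ⟨_, rfl⟩
  have e0 : 0 < e := by
    rw [he]
    exact lt_min (by linarith [wpos 0]) (by linarith)
  have ew : 4 * e ≤ wi 0 := by
    have := min_le_left (wi 0 / 4) (x / 8)
    rw [← he] at this
    linarith
  have ex : 8 * e ≤ x := by
    have := min_le_right (wi 0 / 4) (x / 8)
    rw [← he] at this
    linarith
  -- the labels
  have hlab : ∀ j : Fin m, ∃ (I : Finset (Fin m)) (K : ℕ), I.card = (j : ℕ) ∧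
      Θ j i₁ - e < th I K i₁ := by
    intro j
    by_contra hcon
    push Not at hcon
    have := Θle j j.2.le i₁ (Θ j i₁ - e) fun I K hI => hcon I K hI
    linarith
  choose I K hI hIK using hlab
  obtain ⟨K₀, hK₀⟩ : ∃ K₀, K₀ = Finset.univ.sup K := ⟨_, rfl⟩
  have hKle : ∀ j, K j ≤ K₀ := fun j => by rw [hK₀]; exact Finset.le_sup (Finset.mem_univ j)
  refine ⟨S', wi i₁, wi i₂, K₀, I, fun j => Θ j i₁ - 2 * e, fun j => Θ j i₂, hne, hsub,
    wpos _, ?_, wle _ (Nat.lt_succ_iff.1 i₂.2), ?_, ?_, ?_, ?_⟩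
  · rw [hi₁, hi₂]
    exact wlt i
  · have hm' : ∀ a b : ℕ, a ≤ b → b < m → Θ a i₁ ≤ Θ b i₁ := by
      intro a b hab
      induction b, hab using Nat.le_induction with
      | base => exact fun _ => le_rfl
      | succ n hn ih => exact fun h => (ih (by omega)).trans (Θmono n (by omega) i₁)
    intro a b hab
    have := hm' a b hab b.2
    simp only
    linarith
  · intro j
    have h1 := Θlow j j.2.le i₁
    have h2 := w0le i₁
    have h3 := Θwin j j.2.le i₁ i₂ (by rw [hi₁, hi₂])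
    have h4 := hi j j.2
    exact ⟨by linarith, by linarith, by linarith, Θ1 j j.2.le i₂, hI j⟩
  · intro j
    refine Bas.mono 0 (att (I j) (K j) i₁ e e0) ?_
    intro J _ F A hQ
    have h1 := Θlow j j.2.le i₁
    have h2 := w0le i₁
    have h3 := hIK j
    have hQ' := (tq m (I j) (K j) (wi i₁)).anti
      (show Θ j i₁ - 2 * e ≤ th (I j) (K j) i₁ - e by linarith) hQ
    rcases hQ' with hQ' | hQ'
    · exfalso
      linarith
    · obtain ⟨V, z, z', G, h⟩ := hQ'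
      exact ⟨V, z, z', G, h.mK (hKle j)⟩
  · intro j I' hI' K' h hh huh
    have h1 : th I' K' i₂ ≤ Θ j i₂ := by
      have := leΘ I' K' i₂
      rwa [hI'] at this
    obtain ⟨ψ, hψ, hc⟩ := no I' K' i₂ (Θ j i₂ + h) (by linarith) huh
    refine Bas.neg (Q := fun J F A => GLab F I' K' J ⌊wi i₂ * J⌋₊ ⌊(Θ j i₂ + h) * J⌋₊ A)
      (fun J F => GLab.hered F I' K' _ _ _) ?_
    refine Clp.mono (J₂ := 0) hc ?_
    intro J _ F A hN hG
    refine hN A (fun _ h => h) ?_ (Or.inr hG)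
    have : Real.exp (-(ψ * J)) ≤ 1 := by
      rw [Real.exp_le_one_iff]
      have : 0 ≤ ψ * (J : ℝ) := by positivity
      linarith
    calc _ ≤ 1 * Pe F.p A := mul_le_mul_of_nonneg_right this (Pe_nonneg F.isLaw A)
      _ = _ := one_mul _

end Pool.GEN
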