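import Pool.Agent.H71.GEN.Stm3
import Pool.Agent.H80.PB.Spr2

/-!
# The facts about the class of the maximal families
-/

set_option autoImplicit false

namespace Pool.GEN

open Finset Real MvPolynomial
open Pool.Agent.H49.Ent Pool.Agent.H32.Dense Pool.STK Pool.KA Pool.KSAT Pool.K2S Pool.PB Pool.S6C
open Pool.FLF (Fam.sub)

variable {m J : ℕ}

/-- The fans of the maximal families are spread. -/
theorem base_spr {a R : ℝ} (ha : 1 < a) (hR : 0 < R) (hU : UBa m a R) {g : ℝ} (hg : 0 < g) :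
    Bas (FCl.mx m a R).toP
      (fun J F A => ¬ PlU 0 (1 / 2 ^ ⌊g * J⌋₊) (Fam.pt F) F.d A) := by
  refine Bas.neg (fun J F => PlU.hered _ _ _ _) ?_
  have h := spr_zero (m := m) ha.le hR hU (g := min g (1 / 2)) (lt_min hg (by norm_num))
    (min_le_right _ _)
  refine Clp.mono (J₂ := 0) (clp_of_clg (clg_mx h.clm)) ?_
  intro J _ F A h1
  have h2 : Sp F 0 (R / (4 * a) * min g (1 / 2)) g A := h1.mono le_rfl (min_le_left _ _)
  refine h2 A (fun _ h => h) ?_
  have hpos : 0 < R / (4 * a) * min g (1 / 2) :=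
    mul_pos (by positivity) (lt_min hg (by norm_num))
  have e : Real.exp (-(R / (4 * a) * min g (1 / 2) * J)) ≤ 1 := by
    rw [Real.exp_le_one_iff]
    have : 0 ≤ R / (4 * a) * min g (1 / 2) * J := mul_nonneg hpos.le (Nat.cast_nonneg J)
    linarith
  calc _ ≤ 1 * Pe F.p A := mul_le_mul_of_nonneg_right e (Pe_nonneg F.isLaw A)
    _ = _ := one_mul _

/-- The gain of the maximal families on events. -/
theorem base_gain {a R : ℝ} (ha : 1 < a) (hR : 0 < R) :
    Bas (FCl.mx m a R).toP (fun J F A =>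
      R / 2 * J ≤ CH (Pool.Agent.H49.Ent.cond F.p A True) (F.D J) F.Z -
        CH (Pool.Agent.H49.Ent.cond F.p A True) (F.X J) F.W) := by
  obtain ⟨τ, hτ⟩ : ∃ τ, τ = R / (2 * (1 + (1 + a) * 5)) := ⟨_, rfl⟩
  have hc : 0 < 1 + (1 + a) * 5 := by nlinarith
  have hτ0 : 0 < τ := by rw [hτ]; positivity
  refine ⟨τ, hτ0, 0, fun J _ F A hS => ?_⟩
  have hJ : (0 : ℝ) ≤ J := Nat.cast_nonneg J
  obtain ⟨⟨hTr, hMx, hRb⟩, hP⟩ := hS
  obtain ⟨h, -, -, -, h4⟩ := res_thm m J F a (τ * J) (τ * J) (τ * J) (by linarith)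
    (by positivity) (by positivity) hTr hRb hMx.1 A hP
  have h5 := hMx.2
  have h6 : (F.res A True h).Ga a = CH (Pool.Agent.H49.Ent.cond F.p A True) (F.D J) F.Z -
      a * CH (Pool.Agent.H49.Ent.cond F.p A True) (F.X J) F.W := rfl
  rw [h6] at h4
  have h7 : 0 ≤ CH (Pool.Agent.H49.Ent.cond F.p A True) (F.X J) F.W := CH_nonneg h.nonneg _ _
  have h8 : (R - τ) * J - (1 + a) * (4 * (τ * J) + τ * J) = R / 2 * J := by
    have : τ * (1 + (1 + a) * 5) = R / 2 := by rw [hτ]; field_simp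
    linear_combination (-(J : ℝ)) * this
  have h9 : CH (Pool.Agent.H49.Ent.cond F.p A True) (F.X J) F.W ≤
      a * CH (Pool.Agent.H49.Ent.cond F.p A True) (F.X J) F.W := by nlinarith
  linarith

/-- **(BASE)**, all dimensions. -/
theorem base_thm (m : ℕ) : BaseStmt m := by
  intro a R ha hR hU
  refine ⟨fun g hg => base_spr ha hR hU hg,
    ⟨_, cnt_pos (S := (FCl.mx m a R).toP) ha.le hR fun τ J F A h => st_mx.1 h⟩,
    R / 2, half_pos hR, base_gain ha hR⟩

end Pool.GEN
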