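import Pool.Agent.H54.GN.ThrN

/-!
# The order by the smallest threshold, at good radii

The numbers `u j` are chosen such that the thresholds at the radius exponents `u j` and `u j + d`
are nearly equal.
-/

set_option autoImplicit false

namespace Pool.GEN

open Finset Real MvPolynomial
open Pool.Agent.H49.Ent Pool.Agent.H32.Dense Pool.STK Pool.KA Pool.KSAT Pool.K2S Pool.PB Pool.S6C

/-- A bounded family of monotone functions nearly stays constant on a short interval. -/
theorem flat_step {m : ℕ} (f : Fin m → ℚ → ℝ) (h0 : ∀ k q, 0 ≤ f k q) (h1 : ∀ k q, f k q ≤ 1)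
    (mono : ∀ k q q', q ≤ q' → f k q ≤ f k q') {a b y : ℝ} (hab : a < b) (hy : 0 < y) :
    ∃ v d : ℚ, 0 < d ∧ a < v ∧ (v : ℝ) < b ∧ ∀ k, f k (v + d) ≤ f k v + y := by
  obtain ⟨N, hN⟩ := exists_nat_gt ((m : ℝ) / y)
  have hN0 : 0 < N := by
    rcases Nat.eq_zero_or_pos N with h | h
    · exfalso
      rw [h] at hN
      have : (0 : ℝ) ≤ m / y := by positivity
      simp only [Nat.cast_zero] at hN
      linarith
    · exact h
  have hN1 : (0 : ℝ) < N := by exact_mod_cast hN0
  obtain ⟨v0, hv0, hv0b⟩ := exists_rat_btwn hab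
  obtain ⟨d, hd0, hd1⟩ := exists_rat_btwn (show (0 : ℝ) < (b - v0) / N by
    have : 0 < b - v0 := by linarith
    positivity)
  have hd0' : (0 : ℚ) < d := by exact_mod_cast hd0
  have hd2 : (d : ℝ) * N < b - v0 := by
    rwa [lt_div_iff₀ hN1] at hd1
  by_contra hcon
  push Not at hcon
  obtain ⟨g, hg⟩ : ∃ g : ℚ → ℝ, g = fun q => ∑ k, f k q := ⟨_, rfl⟩
  have step : ∀ i : ℕ, i < N → g (v0 + i * d) + y < g (v0 + ((i + 1 : ℕ) : ℚ) * d) := by
    intro i hi
    have hi' : (i : ℝ) < N := by exact_mod_cast hi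
    have hid : (0 : ℝ) ≤ (i : ℝ) * d := by positivity
    obtain ⟨k, hk⟩ := hcon (v0 + i * d) d hd0' (by push_cast; linarith) (by
      push_cast
      have : (i : ℝ) * d ≤ N * d := mul_le_mul_of_nonneg_right hi'.le hd0.le
      linarith)
    have e : v0 + ((i + 1 : ℕ) : ℚ) * d = v0 + i * d + d := by push_cast; ring
    rw [hg, e]
    simp only
    rw [← Finset.add_sum_erase _ _ (mem_univ k), ← Finset.add_sum_erase _ _ (mem_univ k)]
    have : ∑ l ∈ univ.erase k, f l (v0 + i * d) ≤ ∑ l ∈ univ.erase k, f l (v0 + i * d + d) :=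
      Finset.sum_le_sum fun l _ => mono l _ _ (by linarith)
    linarith
  have all : ∀ i : ℕ, i ≤ N → g v0 + i * y ≤ g (v0 + i * d) := by
    intro i
    induction i with
    | zero =>
      intro _
      simp
    | succ i ih =>
      intro hi
      have h2 := ih (by omega)
      have h3 := step i (by omega)
      push_cast at h3 ⊢
      linarith
  have hg0 : 0 ≤ g v0 := by
    rw [hg]
    exact Finset.sum_nonneg fun k _ => h0 k _
  have hg1 : g (v0 + N * d) ≤ m := by
    rw [hg]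
    simp only
    calc _ ≤ ∑ _k : Fin m, (1 : ℝ) := Finset.sum_le_sum fun k _ => h1 k _
      _ = m := by simp
  have h2 := all N le_rfl
  rw [div_lt_iff₀ hy] at hN
  linarith

/-- Successive choice of the coordinate with the smallest threshold, at good radii; the first
coordinate may be prescribed. -/
theorem order_good {m : ℕ} (lam : Finset (Fin m) → Fin m → ℚ → ℝ)
    (h0 : ∀ I k q, 0 ≤ lam I k q) (h1 : ∀ I k q, lam I k q ≤ 1)
    (mono : ∀ I I' k q q', I ⊆ I' → q ≤ q' → lam I k q ≤ lam I' k q')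
    (hcont : ∀ k, ∀ δ > 0, ∃ q : ℚ, 0 < q ∧ lam ∅ k q ≤ lam ∅ k 0 + δ) (κ : Fin m)
    {x : ℝ} (hx : 0 < x) :
    ∃ (σ : Equiv.Perm (Fin m)) (u : Fin m → ℚ) (d : ℚ), 0 < d ∧
      (∀ j, ∀ k ∉ bef σ j, lam (bef σ j) (σ j) (radq u j) ≤ lam (bef σ j) k (radq u j)) ∧
      (∀ j, (u j : ℝ) < 1 → lam (bef σ j) (σ j) (radq u j + d) ≤
        lam (bef σ j) (σ j) (radq u j) + x / 8) ∧
      (∀ j, 0 < (u j : ℝ) ∧ (u j : ℝ) ≤ 1 ∧
        min (lam (bef σ j) (σ j) (radq u j) + x / 4) 1 ≤ u j ∧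
        (u j : ℝ) ≤ lam (bef σ j) (σ j) (radq u j) + x / 2) ∧
      Monotone u ∧ Monotone (fun j => lam (bef σ j) (σ j) (radq u j)) ∧
      ((∀ k, lam ∅ κ 0 ≤ lam ∅ k 0) → ∀ j : Fin m, (j : ℕ) = 0 → σ j = κ) := by
  classical
  have hmp : 0 < m := Nat.pos_of_ne_zero fun h => by subst h; exact κ.elim0
  have : Nonempty (Fin m) := ⟨κ⟩
  have hm1 : (0 : ℝ) < (m : ℝ) + 1 := by positivity
  obtain ⟨δ, hδ⟩ : ∃ δ : ℝ, δ = x / (8 * (m + 1)) := ⟨_, rfl⟩
  have hδ0 : 0 < δ := by rw [hδ]; positivity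
  have hδm : (m : ℝ) * δ ≤ x / 8 := by
    have e : ((m : ℝ) + 1) * δ = x / 8 := by
      rw [hδ]
      field_simp
    linarith
  have pick : ∀ p : Finset (Fin m) × ℚ, ∃ (k : Fin m) (v dd : ℚ), 0 < dd ∧
      (p.1 ≠ univ → k ∉ p.1 ∧ ∀ k' ∉ p.1, lam p.1 k p.2 ≤ lam p.1 k' p.2) ∧
      (p.1 = ∅ → p.2 = 0 → (∀ k, lam ∅ κ 0 ≤ lam ∅ k 0) → k = κ) ∧
      ((p.2 : ℝ) ≤ 1 → p.2 ≤ v ∧ (v : ℝ) ≤ 1 ∧ min (lam p.1 k p.2 + x / 4) 1 ≤ v ∧
      (v : ℝ) ≤ max (p.2 : ℝ) (lam p.1 k p.2 + x / 4) + δ ∧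
      ((v : ℝ) < 1 → ∀ k', lam (insert k p.1) k' (v + dd) ≤
        lam (insert k p.1) k' v + x / 8)) := by
    intro p
    have hex : ∃ k : Fin m, (p.1 ≠ univ → k ∉ p.1 ∧ ∀ k' ∉ p.1, lam p.1 k p.2 ≤ lam p.1 k' p.2) ∧
        (p.1 = ∅ → p.2 = 0 → (∀ k, lam ∅ κ 0 ≤ lam ∅ k 0) → k = κ) := by
      by_cases hp : p.1 = univ
      · refine ⟨κ, fun h => absurd hp h, fun _ _ _ => rfl⟩
      · by_cases hp0 : p.1 = ∅ ∧ p.2 = 0 ∧ ∀ k, lam ∅ κ 0 ≤ lam ∅ k 0
        · obtain ⟨a1, a2, a3⟩ := hp0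
          refine ⟨κ, fun _ => ⟨by rw [a1]; exact notMem_empty _, fun k' _ => ?_⟩,
            fun _ _ _ => rfl⟩
          rw [a1, a2]
          exact a3 k'
        · have hne : (univ.filter fun k => k ∉ p.1).Nonempty := by
            by_contra hcon
            rw [Finset.not_nonempty_iff_eq_empty, Finset.filter_eq_empty_iff] at hcon
            refine hp (Finset.eq_univ_iff_forall.2 fun k => ?_)
            by_contra hk
            exact hcon (mem_univ k) hk
          obtain ⟨k, hk, hmin⟩ := Finset.exists_min_image _ (fun k => lam p.1 k p.2) hne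
          exact ⟨k, fun _ => ⟨(mem_filter.1 hk).2, fun k' hk' =>
            hmin k' (mem_filter.2 ⟨mem_univ _, hk'⟩)⟩, fun a1 a2 a3 => absurd ⟨a1, a2, a3⟩ hp0⟩
    obtain ⟨k, hk1, hk2⟩ := hex
    obtain ⟨b, hb⟩ : ∃ b : ℝ, b = max (p.2 : ℝ) (lam p.1 k p.2 + x / 4) := ⟨_, rfl⟩
    have hb1 : (p.2 : ℝ) ≤ b := by rw [hb]; exact le_max_left _ _
    have hb2 : lam p.1 k p.2 + x / 4 ≤ b := by rw [hb]; exact le_max_right _ _
    by_cases hbδ : b + δ ≤ 1
    · obtain ⟨v, dd, hdd, hv1, hv2, hv3⟩ := flat_step (fun k' q => lam (insert k p.1) k' q)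
        (fun k' q => h0 _ _ _) (fun k' q => h1 _ _ _)
        (fun k' q q' hq => mono _ _ _ _ _ (Finset.Subset.refl _) hq)
        (show b < b + δ by linarith) (show 0 < x / 8 by linarith)
      refine ⟨k, v, dd, hdd, hk1, hk2, fun _ => ⟨?_, by linarith, ?_, ?_, fun _ => hv3⟩⟩
      · have : (p.2 : ℝ) ≤ v := by linarith
        exact_mod_cast this
      · exact (min_le_left _ _).trans (by linarith)
      · rw [← hb]
        exact hv2.le
    · push Not at hbδ
      refine ⟨k, 1, 1, one_pos, hk1, hk2, fun hp1 => ⟨by exact_mod_cast hp1, by simp, ?_, ?_, ?_⟩⟩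
      · push_cast
        exact min_le_right _ _
      · push_cast
        rw [← hb]
        exact hbδ.le
      · intro h
        exfalso
        push_cast at h
        linarith
  choose kk vv ddd hdd hk hkκ hv using pick
  obtain ⟨st, hst⟩ : ∃ st : ℕ → Finset (Fin m) × ℚ,
    st = fun n => Nat.rec ((∅ : Finset (Fin m)), (0 : ℚ))
      (fun _ p => (insert (kk p) p.1, vv p)) n := ⟨_, rfl⟩
  have st0 : st 0 = (∅, 0) := by rw [hst]; rfl
  have st1 : ∀ n, st (n + 1) = (insert (kk (st n)) (st n).1, vv (st n)) := by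
    intro n
    rw [hst]
  have hcard : ∀ n ≤ m, (st n).1.card = n := by
    intro n
    induction n with
    | zero => intro _; rw [st0]; rfl
    | succ n ih =>
      intro hn
      have ih' := ih (by omega)
      have hne : (st n).1 ≠ univ := by
        intro h
        rw [h, card_univ, Fintype.card_fin] at ih'
        omega
      rw [st1]
      simp only
      rw [card_insert_of_notMem (hk _ hne).1, ih']
  have hne : ∀ n < m, (st n).1 ≠ univ := by
    intro n hn h
    have := hcard n hn.le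
    rw [h, card_univ, Fintype.card_fin] at this
    omega
  have hmemlt : ∀ n l, l < n → kk (st l) ∈ (st n).1 := by
    intro n
    induction n with
    | zero => intro l hl; omega
    | succ n ih =>
      intro l hl
      rw [st1]
      simp only
      rcases Nat.lt_or_ge l n with h | h
      · exact mem_insert_of_mem (ih l h)
      · have : l = n := by omega
        rw [this]
        exact mem_insert_self _ _
  have hinj : Function.Injective (fun j : Fin m => kk (st j)) := by
    intro i j hij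
    simp only at hij
    rcases lt_trichotomy (i : ℕ) j with h | h | h
    · exfalso
      have := hmemlt j i h
      rw [hij] at this
      exact (hk _ (hne j j.2)).1 this
    · exact Fin.ext h
    · exfalso
      have := hmemlt i j h
      rw [← hij] at this
      exact (hk _ (hne i i.2)).1 this
  obtain ⟨σ, hσ⟩ : ∃ σ : Equiv.Perm (Fin m), ∀ j : Fin m, σ j = kk (st j) :=
    ⟨Equiv.ofBijective _ (Finite.injective_iff_bijective.1 hinj), fun _ => rfl⟩
  have hbef : ∀ j : Fin m, bef σ j = (st j).1 := by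
    intro j
    refine Finset.eq_of_subset_of_card_le ?_ ?_
    · intro k hk'
      unfold bef at hk'
      obtain ⟨l, hl, rfl⟩ := mem_image.1 hk'
      rw [hσ]
      exact hmemlt j l (mem_filter.1 hl).2
    · rw [card_bef, hcard j j.2.le]
  obtain ⟨u, hu⟩ : ∃ u : Fin m → ℚ, u = fun j : Fin m => vv (st j) := ⟨_, rfl⟩
  have hrad : ∀ j : Fin m, radq u j = (st j).2 := by
    intro j
    unfold radq
    split_ifs with h
    · rw [h, st0]
    · obtain ⟨i, hi⟩ : ∃ i, (j : ℕ) = i + 1 := ⟨(j : ℕ) - 1, by omega⟩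
      rw [hu]
      simp only [hi, Nat.add_sub_cancel]
      rw [st1]
  -- the bound of the radius
  have hrb : ∀ n < m, 0 ≤ (st n).2 ∧ ((st n).2 : ℝ) ≤ 1 ∧ ∀ k' ∉ (st n).1,
      ((st n).2 : ℝ) ≤ lam (st n).1 k' (st n).2 + x / 4 + n * δ := by
    intro n
    induction n with
    | zero =>
      intro _
      rw [st0]
      refine ⟨le_rfl, by norm_num, fun k' _ => ?_⟩
      have := h0 ∅ k' 0
      simp only [Rat.cast_zero, Nat.cast_zero, zero_mul, add_zero]
      linarith
    | succ n ih =>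
      intro hn
      obtain ⟨a0, a1, a2⟩ := ih (by omega)
      have hn' := hne n (by omega)
      obtain ⟨v1, v2, v3, v4, v5⟩ := hv (st n) a1
      rw [st1]
      simp only
      refine ⟨a0.trans v1, v2, fun k' hk' => ?_⟩
      have hk1 : k' ∉ (st n).1 := fun h => hk' (mem_insert_of_mem h)
      have e1 : lam (st n).1 k' (st n).2 ≤
          lam (insert (kk (st n)) (st n).1) k' (vv (st n)) :=
        mono _ _ _ _ _ (subset_insert _ _) v1
      have e2 := (hk _ hn').2 k' hk1
      have e3 := a2 _ (hk _ hn').1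
      have e4 : max (((st n).2 : ℚ) : ℝ) (lam (st n).1 (kk (st n)) (st n).2 + x / 4) ≤
          lam (st n).1 (kk (st n)) (st n).2 + x / 4 + n * δ := by
        refine max_le e3 ?_
        have : 0 ≤ (n : ℝ) * δ := by positivity
        linarith
      push_cast
      linarith
  have hlamj : ∀ j : Fin m, lam (bef σ j) (σ j) (radq u j) = lam (st j).1 (kk (st j)) (st j).2 := by
    intro j
    rw [hbef, hσ, hrad]
  have hstep : ∀ n, n + 1 < m → vv (st n) ≤ vv (st (n + 1)) ∧
      lam (st n).1 (kk (st n)) (st n).2 ≤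
      lam (st (n + 1)).1 (kk (st (n + 1))) (st (n + 1)).2 := by
    intro n hn
    have hn1 := (hk _ (hne (n + 1) hn)).1
    have hsub : (st n).1 ⊆ (st (n + 1)).1 := by
      rw [st1]
      exact subset_insert _ _
    have hn2 : kk (st (n + 1)) ∉ (st n).1 := fun h => hn1 (hsub h)
    refine ⟨?_, ?_⟩
    · obtain ⟨v1, -⟩ := hv (st (n + 1)) (hrb (n + 1) hn).2.1
      refine le_trans ?_ v1
      rw [st1]
    · refine ((hk _ (hne n (by omega))).2 _ hn2).trans ?_
      refine mono _ _ _ _ _ hsub ?_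
      rw [st1]
      exact (hv (st n) (hrb n (by omega)).2.1).1
  have hmonn : ∀ a b : ℕ, a ≤ b → b < m → vv (st a) ≤ vv (st b) ∧
      lam (st a).1 (kk (st a)) (st a).2 ≤ lam (st b).1 (kk (st b)) (st b).2 := by
    intro a b hab
    induction b, hab using Nat.le_induction with
    | base => exact fun _ => ⟨le_rfl, le_rfl⟩
    | succ n hn ih =>
      intro h
      have h1 := ih (by omega)
      have h2 := hstep n h
      exact ⟨h1.1.trans h2.1, h1.2.trans h2.2⟩
  have humono : Monotone u := by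
    intro a b hab
    rw [hu]
    exact (hmonn a b hab b.2).1
  -- the constant `d`
  have hq0 : ∀ k, ∃ q : ℚ, 0 < q ∧ lam ∅ k q ≤ lam ∅ k 0 + x / 8 := fun k =>
    hcont k (x / 8) (by linarith)
  choose q0 hq0 hq0' using hq0
  obtain ⟨d, hd0, hd1, hd2⟩ : ∃ d : ℚ, 0 < d ∧ (∀ k, d ≤ q0 k) ∧ ∀ j : Fin m, d ≤ ddd (st j) := by
    obtain ⟨i1, -, hi1⟩ := Finset.exists_min_image univ q0 univ_nonempty
    obtain ⟨i2, -, hi2⟩ := Finset.exists_min_image univ (fun j : Fin m => ddd (st j))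
      ⟨κ, mem_univ _⟩
    exact ⟨min (q0 i1) (ddd (st i2)), lt_min (hq0 _) (hdd _), fun k =>
      (min_le_left _ _).trans (hi1 k (mem_univ _)), fun j =>
      (min_le_right _ _).trans (hi2 j (mem_univ _))⟩
  refine ⟨σ, u, d, hd0, ?_, ?_, ?_, humono, ?_, ?_⟩
  · intro j k hkj
    rw [hlamj, hbef, hrad]
    rw [hbef] at hkj
    exact (hk _ (hne j j.2)).2 k hkj
  · intro j huj
    rcases Nat.eq_zero_or_pos (j : ℕ) with h | h
    · have e1 : bef σ j = ∅ := by rw [hbef, h, st0]
      have e2 : radq u j = 0 := by rw [hrad, h, st0]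
      rw [e1, e2, zero_add]
      refine le_trans (mono _ _ _ _ _ (Finset.Subset.refl _) (hd1 (σ j))) (hq0' _)
    · obtain ⟨i, hi⟩ : ∃ i, (j : ℕ) = i + 1 := ⟨(j : ℕ) - 1, by omega⟩
      have him : i < m := by omega
      have e1 : bef σ j = insert (kk (st i)) (st i).1 := by rw [hbef, hi, st1]
      have e2 : radq u j = vv (st i) := by rw [hrad, hi, st1]
      have e3 : ((vv (st i) : ℚ) : ℝ) < 1 := by
        have h1 : u ⟨i, him⟩ ≤ u j := humono (by rw [Fin.le_def]; simp only; omega)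
        have h2 : u ⟨i, him⟩ = vv (st i) := by rw [hu]
        rw [h2] at h1
        have h3 : ((vv (st i) : ℚ) : ℝ) ≤ u j := by exact_mod_cast h1
        linarith
      obtain ⟨-, -, -, -, v5⟩ := hv (st i) (hrb i him).2.1
      rw [e1, e2]
      refine le_trans (mono _ _ _ _ _ (Finset.Subset.refl _) ?_) (v5 e3 (σ j))
      have := hd2 ⟨i, him⟩
      simp only at this
      linarith
  · intro j
    obtain ⟨a0, a1, a2⟩ := hrb j j.2
    obtain ⟨v1, v2, v3, v4, v5⟩ := hv (st j) a1
    have hj := hk _ (hne j j.2)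
    have e0 := h0 (st j).1 (kk (st j)) (st j).2
    have e3 := a2 _ hj.1
    rw [hlamj, hu]
    simp only
    refine ⟨?_, v2, v3, ?_⟩
    · refine lt_of_lt_of_le (lt_min ?_ one_pos) v3
      linarith
    · refine v4.trans ?_
      have e4 : max (((st j).2 : ℚ) : ℝ) (lam (st j).1 (kk (st j)) (st j).2 + x / 4) ≤
          lam (st j).1 (kk (st j)) (st j).2 + x / 4 + (j : ℕ) * δ := by
        refine max_le e3 ?_
        have : 0 ≤ ((j : ℕ) : ℝ) * δ := by positivity
        linarith
      have e5 : (((j : ℕ) : ℝ) + 1) * δ ≤ m * δ := by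
        refine mul_le_mul_of_nonneg_right ?_ hδ0.le
        have := j.2
        exact_mod_cast this
      linarith
  · intro a b hab
    simp only
    rw [hlamj, hlamj]
    exact (hmonn a b hab b.2).2
  · intro hκ j hj
    rw [hσ, hj]
    exact hkκ _ (by rw [st0]) (by rw [st0]) hκ

end Pool.GEN
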