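import Pool.Agent.H54.GN.OrdR

/-!
# Thresholds of the labels of one coordinate: radii with slack, prescribed first coordinate

`ThrM` is `ThrN` with two additions: the absent labels have balls which are smaller by the factor
`2 ^ (-c w₂ J)`, and the first coordinate may be prescribed if it has no labels over the empty set.
-/

set_option autoImplicit false

namespace Pool.GEN

open Finset Real MvPolynomial
open Pool.Agent.H49.Ent Pool.Agent.H32.Dense Pool.STK Pool.KA Pool.KSAT Pool.K2S Pool.PB Pool.S6C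

/-- The coordinate `κ` has no labels over the empty set, of any positive height, for all small
windows. -/
def NoLb0 {m : ℕ} (S : PCl m) (κ : Fin m) : Prop :=
  ∀ h : ℝ, 0 < h → ∃ w : ℝ, 0 < w ∧ w ≤ 1 ∧ ∀ K : ℕ, Bas S (fun J F A =>
    ¬ Lb F ∅ κ K ⌊w * J⌋₊ J ⌊w * J⌋₊ ⌊w * J⌋₊ ⌊h * J⌋₊ A)

/-- **(THR)** The order of the coordinates by the smallest threshold, the thresholds `s j` at the
windows `w₁`, for all classes at most `u j ≤ s j + x` at the windows `w₂`. The absent labels have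
the exponent `rad u w₂ j + c w₂` for the radius. -/
def ThrM (m : ℕ) : Prop :=
  ∀ (S : PCl m), S.Ne → ∀ c wp x : ℝ, 0 ≤ c → 0 < wp → wp ≤ 1 → 0 < x → ∀ κ : Fin m,
    ∃ (w₂ : ℝ) (σ : Equiv.Perm (Fin m)) (s u : Fin m → ℝ),
    0 < w₂ ∧ w₂ ≤ wp ∧ Monotone s ∧ Monotone u ∧
    (∀ j, 0 ≤ s j ∧ s j ≤ u j ∧ w₂ ≤ u j ∧ u j ≤ s j + x ∧ u j ≤ 1) ∧
    (NoLb0 S κ → ∀ j : Fin m, (j : ℕ) = 0 → σ j = κ ∧ s j = 0) ∧
    ∀ w₁ e₁ : ℝ, 0 < w₁ → w₁ < w₂ → 0 < e₁ → ∃ (S' : PCl m) (K₀ : ℕ), S'.Ne ∧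
      (∀ (τ : ℝ) (J : ℕ) (F : Fam m J) (A : F.Ω → Prop), S'.St τ J F A → S.St τ J F A) ∧
      (∀ j, ∀ k ∉ bef σ j, Bas S' (fun J F A =>
        Lb F (bef σ j) k K₀ ⌊e₁ * J⌋₊ J ⌊w₁ * J⌋₊ ⌊rad u w₁ j * J⌋₊ ⌊s j * J⌋₊ A)) ∧
      ∀ (j : Fin m) (K : ℕ) (h : ℝ), 0 < h → u j + h ≤ 1 → Bas S' (fun J F A =>
        ¬ Lb F (bef σ j) (σ j) K ⌊w₂ * J⌋₊ J ⌊w₂ * J⌋₊ ⌊(rad u w₂ j + c * w₂) * J⌋₊
          ⌊(u j + h) * J⌋₊ A)

theorem thrm_thm (m : ℕ) : ThrM m := by
  classical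
  intro S hS c wp x hc hwp hwp1 hx κ
  have : Nonempty (Fin m) := ⟨κ⟩
  -- the windows
  obtain ⟨wq, hwq⟩ : ∃ wq, wq = min wp (x / 4) := ⟨_, rfl⟩
  have hwq0 : 0 < wq := by rw [hwq]; exact lt_min hwp (by linarith)
  have hwqp : wq ≤ wp := by rw [hwq]; exact min_le_left _ _
  have hwqx : wq ≤ x / 4 := by rw [hwq]; exact min_le_right _ _
  obtain ⟨wi, hwi⟩ : ∃ wi : ℕ → ℝ, wi = fun i : ℕ => wq / ((i : ℝ) + 1) := ⟨_, rfl⟩
  have wpos : ∀ i, 0 < wi i := by
    intro i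
    rw [hwi]
    positivity
  have wanti : ∀ i i', i ≤ i' → wi i' ≤ wi i := by
    intro i i' h
    rw [hwi]
    have : (i : ℝ) ≤ i' := by exact_mod_cast h
    exact div_le_div_of_nonneg_left hwq0.le (by positivity) (by linarith)
  have wleq : ∀ i, wi i ≤ wq := by
    intro i
    have h := wanti 0 i (Nat.zero_le i)
    have e : wi 0 = wq := by rw [hwi]; simp
    rwa [e] at h
  have wle : ∀ i, wi i ≤ wp := fun i => (wleq i).trans hwqp
  have wle1 : ∀ i, wi i ≤ 1 := fun i => (wle i).trans hwp1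
  have wsmall : ∀ δ > 0, ∃ i, wi i < δ := by
    intro δ hδ
    obtain ⟨i, hi⟩ := exists_nat_gt (wq / δ)
    refine ⟨i, ?_⟩
    rw [hwi]
    rw [div_lt_iff₀ hδ] at hi
    rw [div_lt_iff₀ (by positivity)]
    nlinarith
  -- the thresholds
  obtain ⟨f, hf⟩ := exists_surjective_nat (Finset (Fin m) × Fin m × ℕ × ℕ × ℚ)
  obtain ⟨s, S', h01, hsub, hne, hatt, hno, -⟩ := ext S hS
    (fun n => tqn m (f n).1 (f n).2.1 (f n).2.2.1 (wi (f n).2.2.2.1) (f n).2.2.2.2)
  obtain ⟨g, hg⟩ : ∃ g : Finset (Fin m) × Fin m × ℕ × ℕ × ℚ → ℕ, ∀ a, f (g a) = a :=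
    ⟨Function.surjInv hf, Function.surjInv_eq hf⟩
  obtain ⟨th, hth⟩ : ∃ th : Finset (Fin m) → Fin m → ℕ → ℕ → ℚ → ℝ,
    th = fun I k K i q => s (g (I, k, K, i, q)) := ⟨_, rfl⟩
  have th0 : ∀ I k K i q, 0 ≤ th I k K i q := fun I k K i q => by rw [hth]; exact (h01 _).1
  have th1 : ∀ I k K i q, th I k K i q ≤ 1 := fun I k K i q => by rw [hth]; exact (h01 _).2
  have att : ∀ (I : Finset (Fin m)) (k : Fin m) (K i : ℕ) (q : ℚ), ∀ τ > 0,
      Bas S' ((tqn m I k K (wi i) q).Q (th I k K i q - τ)) := by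
    intro I k K i q τ hτ
    obtain ⟨n, hn⟩ : ∃ n, n = g (I, k, K, i, q) := ⟨_, rfl⟩
    have hfn : f n = (I, k, K, i, q) := by rw [hn, hg]
    have hg0 : (0 : ℝ) < (n : ℝ) + 1 := by positivity
    refine ⟨min τ (1 / ((n : ℝ) + 1)), lt_min hτ (by positivity), 0, fun J _ F A hA => ?_⟩
    have h2 := hatt n (min τ (1 / ((n : ℝ) + 1))) J F A (by
      calc _ ≤ ((n : ℝ) + 1) * (1 / ((n : ℝ) + 1)) :=
            mul_le_mul_of_nonneg_left (min_le_right _ _) hg0.le
        _ = 1 := by field_simp) hA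
    have e : th I k K i q = s n := by rw [hth, hn]
    rw [e]
    simp only [hfn] at h2
    exact (tqn m I k K (wi i) q).anti (by linarith [min_le_left τ (1 / ((n : ℝ) + 1))]) h2
  have no : ∀ I k K i q, ∀ h : ℝ, th I k K i q < h → h ≤ 1 →
      ∃ ψ > 0, Clp S' ((tqn m I k K (wi i) q).No h ψ) := by
    intro I k K i q h h1 h2
    obtain ⟨n, hn⟩ : ∃ n, n = g (I, k, K, i, q) := ⟨_, rfl⟩
    have hfn : f n = (I, k, K, i, q) := by rw [hn, hg]
    have e : th I k K i q = s n := by rw [hth, hn]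
    rw [e] at h1
    have h3 := hno n h h1 h2
    simp only [hfn] at h3
    exact h3
  -- comparison
  have cmp : ∀ (I I' : Finset (Fin m)) (k : Fin m) (K K' i i' : ℕ) (q q' : ℚ), I ⊆ I' →
      K ≤ K' → i' ≤ i → max (q : ℝ) (wi i) ≤ max (q' : ℝ) (wi i') →
      th I k K i q ≤ th I' k K' i' q' := by
    intro I I' k K K' i i' q q' hI hK hi hq
    refine tqn_le hne (th1 I k K i q) (fun τ hτ => (att I k K i q τ hτ).clp)
      (no I' k K' i' q') ?_
    intro J F A P h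
    have hJ : (0 : ℝ) ≤ J := Nat.cast_nonneg J
    have e1 : ⌊wi i * J⌋₊ ≤ ⌊wi i' * (J : ℝ)⌋₊ :=
      Nat.floor_le_floor (mul_le_mul_of_nonneg_right (wanti _ _ hi) hJ)
    have e2 : ⌊max (q : ℝ) (wi i) * J⌋₊ ≤ ⌊max (q' : ℝ) (wi i') * (J : ℝ)⌋₊ :=
      Nat.floor_le_floor (mul_le_mul_of_nonneg_right hq hJ)
    exact h.mono hI hK e1 le_rfl e1 (fl_le (wle1 i') J) e2 le_rfl
  have cmpq : ∀ (i i' : ℕ) (q q' : ℚ), i' ≤ i → q ≤ q' →
      max (q : ℝ) (wi i) ≤ max (q' : ℝ) (wi i') := fun i i' q q' hi hq =>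
    max_le_max (by exact_mod_cast hq) (wanti _ _ hi)
  have thlow : ∀ (I : Finset (Fin m)) (k : Fin m) (K i : ℕ) (q : ℚ), wi i ≤ th I k K i q := by
    intro I k K i q
    by_contra hcon
    push Not at hcon
    have h1 : (th I k K i q + wi i) / 2 ≤ th I k K i q := by
      refine le_of_att hne (no I k K i q) (by linarith [wle1 i]) fun δ hδ => ?_
      obtain ⟨J₁, hJ₁⟩ := box_thrn m (w := wi i) (h := (th I k K i q + wi i) / 2)
        (by linarith [th0 I k K i q, wpos i]) (by linarith) (wle1 i) hδ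
      refine Clp.of one_pos J₁ fun J hJ F A _ => ?_
      obtain ⟨B, h2, h3, h4⟩ := hJ₁ J hJ F A
      exact ⟨B, h2, h3, Or.inr (h4 I k K _ _)⟩
    linarith
  -- the suprema over the classes, the limits of the windows
  have bd1 : ∀ I k i q, BddAbove (Set.range fun K => th I k K i q) := by
    intro I k i q
    exact ⟨1, by rintro y ⟨K, rfl⟩; exact th1 I k K i q⟩
  obtain ⟨Λ, hΛ⟩ : ∃ Λ : Finset (Fin m) → Fin m → ℕ → ℚ → ℝ,
    Λ = fun I k i q => ⨆ K, th I k K i q := ⟨_, rfl⟩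
  have leΛ : ∀ I k K i q, th I k K i q ≤ Λ I k i q := by
    intro I k K i q
    rw [hΛ]
    exact le_ciSup (bd1 I k i q) K
  have Λle : ∀ I k i q b, (∀ K, th I k K i q ≤ b) → Λ I k i q ≤ b := by
    intro I k i q b h
    rw [hΛ]
    exact ciSup_le h
  have Λ0 : ∀ I k i q, 0 ≤ Λ I k i q := fun I k i q => (th0 I k 0 i q).trans (leΛ I k 0 i q)
  have Λ1 : ∀ I k i q, Λ I k i q ≤ 1 := fun I k i q => Λle I k i q 1 fun K => th1 I k K i q
  have bd2 : ∀ I k q, BddBelow (Set.range fun i => Λ I k i q) := by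
    intro I k q
    exact ⟨0, by rintro y ⟨i, rfl⟩; exact Λ0 I k i q⟩
  obtain ⟨lam, hlam⟩ : ∃ lam : Finset (Fin m) → Fin m → ℚ → ℝ,
    lam = fun I k q => ⨅ i, Λ I k i q := ⟨_, rfl⟩
  have lamle : ∀ I k i q, lam I k q ≤ Λ I k i q := by
    intro I k i q
    rw [hlam]
    exact ciInf_le (bd2 I k q) i
  have lam0 : ∀ I k q, 0 ≤ lam I k q := by
    intro I k q
    rw [hlam]
    exact le_ciInf fun i => Λ0 I k i q
  have lam1 : ∀ I k q, lam I k q ≤ 1 := fun I k q => (lamle I k 0 q).trans (Λ1 I k 0 q)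
  have lammono : ∀ I I' k q q', I ⊆ I' → q ≤ q' → lam I k q ≤ lam I' k q' := by
    intro I I' k q q' hI hq
    have : lam I' k q' = ⨅ i, Λ I' k i q' := by rw [hlam]
    rw [this]
    refine le_ciInf fun i => (lamle I k i q).trans ?_
    exact Λle I k i q _ fun K => (cmp I I' k K K i i q q' hI le_rfl le_rfl
      (cmpq i i q q' le_rfl hq)).trans (leΛ I' k K i q')
  have Λanti : ∀ I k i i' q, i ≤ i' → Λ I k i' q ≤ Λ I k i q := by
    intro I k i i' q h
    exact Λle I k i' q _ fun K => (cmp I I k K K i' i q q (Finset.Subset.refl _) le_rfl h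
      (cmpq i' i q q h le_rfl)).trans (leΛ I k K i q)
  have lamlim : ∀ I k q, ∀ δ > 0, ∃ i₀, ∀ i ≥ i₀, Λ I k i q < lam I k q + δ := by
    intro I k q δ hδ
    have h1 : ⨅ i, Λ I k i q < lam I k q + δ := by
      have : lam I k q = ⨅ i, Λ I k i q := by rw [hlam]
      rw [← this]
      linarith
    obtain ⟨i₀, hi₀⟩ := exists_lt_of_ciInf_lt h1
    exact ⟨i₀, fun i hi => (Λanti I k i₀ i q hi).trans_lt hi₀⟩
  -- continuity at the radius exponent zero
  have hcont : ∀ k, ∀ δ > 0, ∃ q : ℚ, 0 < q ∧ lam ∅ k q ≤ lam ∅ k 0 + δ := by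
    intro k δ hδ
    obtain ⟨i₀, hi₀⟩ := lamlim ∅ k 0 δ hδ
    obtain ⟨q, hq0, hq1⟩ := exists_rat_btwn (wpos i₀)
    refine ⟨q, by exact_mod_cast hq0, ?_⟩
    refine (lamle ∅ k i₀ q).trans (le_trans ?_ (hi₀ i₀ le_rfl).le)
    refine Λle ∅ k i₀ q _ fun K => (cmp ∅ ∅ k K K i₀ i₀ q 0 (Finset.Subset.refl _) le_rfl
      le_rfl ?_).trans (leΛ ∅ k K i₀ 0)
    exact max_le (hq1.le.trans (le_max_right _ _)) (le_max_right _ _)
  -- the prescribed coordinate
  have hκ0 : NoLb0 S κ → lam ∅ κ 0 ≤ 0 := by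
    intro hN
    refine le_of_forall_pos_le_add fun h hh => ?_
    obtain ⟨w, hw, hw1, hwK⟩ := hN h hh
    obtain ⟨i, hi⟩ := wsmall w hw
    refine (lamle ∅ κ i 0).trans (Λle ∅ κ i 0 _ fun K => ?_)
    by_contra hcon
    push Not at hcon
    have h1 := att ∅ κ K i 0 (th ∅ κ K i 0 - h) (by linarith)
    have h2 := Bas.sub hsub (hwK K)
    refine Clp.not_false hne (Clp.mono (J₂ := 0) (h1.and h2).clp ?_)
    intro J _ F A hAB
    obtain ⟨hQ, hN⟩ := hAB
    have e : th ∅ κ K i 0 - (th ∅ κ K i 0 - h) = h := by ring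
    rw [e] at hQ
    have hJ : (0 : ℝ) ≤ J := Nat.cast_nonneg J
    rcases hQ with hQ | hQ
    · exact absurd hQ (not_le.2 hh)
    · have e4 : max ((0 : ℚ) : ℝ) (wi i) = wi i := by
        rw [Rat.cast_zero]
        exact max_eq_right (wpos i).le
      rw [e4] at hQ
      have h5 : ⌊wi i * (J : ℝ)⌋₊ ≤ ⌊w * (J : ℝ)⌋₊ :=
        Nat.floor_le_floor (mul_le_mul_of_nonneg_right hi.le hJ)
      exact hN (hQ.mono (Finset.Subset.refl _) le_rfl h5 le_rfl h5 (fl_le hw1 J) h5 le_rfl)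
  have hκ : NoLb0 S κ → ∀ k, lam ∅ κ 0 ≤ lam ∅ k 0 := fun hN k => (hκ0 hN).trans (lam0 ∅ k 0)
  -- the order
  obtain ⟨σ, u, d, hd, hmin, hgood, hub, humono, hlmono, hfirst⟩ :=
    order_good lam lam0 lam1 lammono hcont κ hx
  have hd' : (0 : ℝ) < d := by exact_mod_cast hd
  obtain ⟨L, hL⟩ : ∃ L : Fin m → ℝ, L = fun j => lam (bef σ j) (σ j) (radq u j) := ⟨_, rfl⟩
  have hLj : ∀ j, lam (bef σ j) (σ j) (radq u j) = L j := fun j => by rw [hL]
  -- the window `w₂`
  have hi2 : ∃ i₂, (c + 1) * wi i₂ ≤ d ∧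
      ∀ j, (u j : ℝ) < 1 → Λ (bef σ j) (σ j) i₂ (radq u j + d) < L j + x / 4 := by
    have : ∀ j, ∃ i₀, ∀ i ≥ i₀, (u j : ℝ) < 1 →
        Λ (bef σ j) (σ j) i (radq u j + d) < L j + x / 4 := by
      intro j
      by_cases huj : (u j : ℝ) < 1
      · have h1 := hgood j huj
        rw [hLj] at h1
        obtain ⟨i₀, hi₀⟩ := lamlim (bef σ j) (σ j) (radq u j + d) (x / 8) (by linarith)
        exact ⟨i₀, fun i hi _ => by
          have := hi₀ i hi
          linarith⟩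
      · exact ⟨0, fun i _ h => absurd h huj⟩
    choose i₀ hi₀ using this
    have hc1 : 0 < c + 1 := by linarith
    obtain ⟨i₁, hi₁⟩ := wsmall (d / (c + 1)) (by positivity)
    rw [lt_div_iff₀ hc1] at hi₁
    refine ⟨max i₁ (univ.sup i₀), ?_, fun j => hi₀ j _
      ((Finset.le_sup (mem_univ j)).trans (le_max_right _ _))⟩
    have := mul_le_mul_of_nonneg_left (wanti i₁ (max i₁ (univ.sup i₀)) (le_max_left _ _)) hc1.le
    linarith
  obtain ⟨i₂, hi₂d, hi₂⟩ := hi2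
  have hwu : ∀ i j, wi i ≤ (u j : ℝ) := by
    intro i j
    obtain ⟨b1, b2, b3, b4⟩ := hub j
    refine le_trans ?_ b3
    refine le_min ?_ (wle1 i)
    have := lam0 (bef σ j) (σ j) (radq u j)
    linarith [wleq i]
  refine ⟨wi i₂, σ, fun j => max (L j - x / 4) 0, fun j => (u j : ℝ), wpos _, wle _, ?_, ?_, ?_,
    fun hN j hj => ⟨hfirst (hκ hN) j hj, ?_⟩, ?_⟩
  · intro a b hab
    have h1 : L a ≤ L b := by
      have := hlmono hab
      simp only [hLj] at this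
      exact this
    exact max_le_max (by linarith) le_rfl
  · intro a b hab
    simp only
    exact_mod_cast humono hab
  · intro j
    obtain ⟨b1, b2, b3, b4⟩ := hub j
    rw [hLj] at b3 b4
    have hl0 : 0 ≤ L j := by rw [← hLj]; exact lam0 _ _ _
    have hl1 : L j ≤ 1 := by rw [← hLj]; exact lam1 _ _ _
    refine ⟨le_max_right _ _, ?_, hwu i₂ j, ?_, b2⟩
    · refine max_le (le_trans ?_ b3) b1.le
      exact le_min (by linarith) (by linarith)
    · have := le_max_left (L j - x / 4) 0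
      linarith
  · have h1 : L j ≤ 0 := by
      have e1 : bef σ j = ∅ := by
        rw [← Finset.card_eq_zero, card_bef, hj]
      have e2 : radq u j = 0 := by
        unfold radq
        rw [if_pos hj]
      rw [← hLj, hfirst (hκ hN) j hj, e1, e2]
      exact hκ0 hN
    simp only
    exact max_eq_right (by linarith)
  · intro w₁ e₁ hw₁ hw₁₂ he₁
    -- the window of the attained labels
    obtain ⟨i₁, hi₁⟩ := wsmall (min w₁ e₁) (lt_min hw₁ he₁)
    have hw1 : wi i₁ ≤ w₁ := hi₁.le.trans (min_le_left _ _)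
    have he1 : wi i₁ ≤ e₁ := hi₁.le.trans (min_le_right _ _)
    have hw11 : w₁ ≤ 1 := hw₁₂.le.trans (wle1 i₂)
    have hKex : ∀ (j k : Fin m), ∃ K, k ∉ bef σ j →
        L j - x / 8 < th (bef σ j) k K i₁ (radq u j) := by
      intro j k
      by_cases hkj : k ∉ bef σ j
      · have h1 : L j ≤ Λ (bef σ j) k i₁ (radq u j) := by
          rw [← hLj]
          exact (hmin j k hkj).trans (lamle _ _ _ _)
        by_contra hcon
        push Not at hcon
        have := Λle (bef σ j) k i₁ (radq u j) (L j - x / 8) fun K => (hcon K).2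
        linarith
      · exact ⟨0, fun h => absurd h hkj⟩
    choose K hK using hKex
    obtain ⟨K₀, hK₀⟩ : ∃ K₀, K₀ = univ.sup fun j => univ.sup (K j) := ⟨_, rfl⟩
    have hKle : ∀ j k, K j k ≤ K₀ := by
      intro j k
      rw [hK₀]
      exact (Finset.le_sup (f := K j) (mem_univ k)).trans
        (Finset.le_sup (f := fun j => univ.sup (K j)) (mem_univ j))
    refine ⟨S', K₀, hne, hsub, ?_, ?_⟩
    · intro j k hkj
      have h1 := hK j k hkj
      have h2 := thlow (bef σ j) k (K j k) i₁ (radq u j)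
      have h3 := wpos i₁
      obtain ⟨τ, hτ⟩ : ∃ τ, τ = min (x / 8) (wi i₁ / 2) := ⟨_, rfl⟩
      have hτ0 : 0 < τ := by rw [hτ]; exact lt_min (by linarith) (by linarith)
      have hτ1 : τ ≤ x / 8 := by rw [hτ]; exact min_le_left _ _
      have hτ2 : τ ≤ wi i₁ / 2 := by rw [hτ]; exact min_le_right _ _
      refine Bas.mono 0 (att (bef σ j) k (K j k) i₁ (radq u j) τ hτ0) ?_
      intro J _ F A hQ
      have hJ : (0 : ℝ) ≤ J := Nat.cast_nonneg J
      rcases hQ with hQ | hQ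
      · exfalso
        linarith
      · refine hQ.mono (Finset.Subset.refl _) (hKle j k) ?_ le_rfl ?_ (fl_le hw11 J) ?_ ?_
        · exact Nat.floor_le_floor (mul_le_mul_of_nonneg_right he1 hJ)
        · exact Nat.floor_le_floor (mul_le_mul_of_nonneg_right hw1 hJ)
        · rw [← radq_cast u hw₁.le (fun j => hw₁₂.le.trans (hwu i₂ j))]
          exact Nat.floor_le_floor (mul_le_mul_of_nonneg_right (max_le_max le_rfl hw1) hJ)
        · refine Nat.floor_le_floor (mul_le_mul_of_nonneg_right ?_ hJ)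
          exact max_le (by linarith) (by linarith)
    · intro j K' h hh huh
      have huj : (u j : ℝ) < 1 := by linarith
      have h1 : th (bef σ j) (σ j) K' i₂ (radq u j + d) < (u j : ℝ) + h := by
        have a1 := leΛ (bef σ j) (σ j) K' i₂ (radq u j + d)
        have a2 := hi₂ j huj
        obtain ⟨b1, b2, b3, b4⟩ := hub j
        rw [hLj] at b3
        rcases le_or_gt (L j + x / 4) 1 with hc | hc
        · rw [min_eq_left hc] at b3
          linarith
        · rw [min_eq_right hc.le] at b3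
          linarith
      obtain ⟨ψ, hψ, hc'⟩ := no (bef σ j) (σ j) K' i₂ (radq u j + d) ((u j : ℝ) + h) h1 huh
      refine Bas.neg (Q := fun J F A => Lb F (bef σ j) (σ j) K' ⌊wi i₂ * J⌋₊ J ⌊wi i₂ * J⌋₊
        ⌊(rad (fun j => (u j : ℝ)) (wi i₂) j + c * wi i₂) * J⌋₊ ⌊((u j : ℝ) + h) * J⌋₊ A)
        (fun J F => Lb.hered F _ _ _ _ _ _ _ _) ?_
      refine Clp.mono (J₂ := 0) hc' ?_
      intro J _ F A hN hG
      refine hN A (fun _ h => h) ?_ (Or.inr ?_)
      · have : Real.exp (-(ψ * J)) ≤ 1 := by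
          rw [Real.exp_le_one_iff]
          have : 0 ≤ ψ * (J : ℝ) := by positivity
          linarith
        calc _ ≤ 1 * Pe F.p A := mul_le_mul_of_nonneg_right this (Pe_nonneg F.isLaw A)
          _ = _ := one_mul _
      · have hJ : (0 : ℝ) ≤ J := Nat.cast_nonneg J
        refine hG.mono (Finset.Subset.refl _) le_rfl le_rfl le_rfl le_rfl (fl_le (wle1 i₂) J)
          (Nat.floor_le_floor (mul_le_mul_of_nonneg_right ?_ hJ)) le_rfl
        rw [← radq_cast u (wpos i₂).le (fun j => hwu i₂ j)]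
        push_cast
        have hr0 : (0 : ℝ) ≤ ((radq u j : ℚ) : ℝ) := by
          unfold radq
          split_ifs
          · simp
          · exact (hub _).1.le
        have hw0 := wpos i₂
        rcases le_total (((radq u j : ℚ) : ℝ)) (wi i₂) with hl | hl
        · rw [max_eq_right hl]
          refine le_trans ?_ (le_max_left _ _)
          linarith
        · rw [max_eq_left hl]
          refine le_trans ?_ (le_max_left _ _)
          linarith

end Pool.GEN
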