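import Pool.Agent.H54.GN.Lb
import Pool.Agent.H54.GN.Thr

/-!
# Thresholds of the labels of one coordinate (`ThrN`)
-/

set_option autoImplicit false

namespace Pool.GEN

open Finset Real MvPolynomial
open Pool.Agent.H49.Ent Pool.Agent.H32.Dense Pool.STK Pool.KA Pool.KSAT Pool.K2S Pool.PB Pool.S6C

/-! ### The order by the smallest threshold -/

/-- `rad` with rational values. -/
def radq {m : ℕ} (u : Fin m → ℚ) (j : Fin m) : ℚ :=
  if (j : ℕ) = 0 then 0 else u ⟨(j : ℕ) - 1, by omega⟩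

theorem radq_cast {m : ℕ} (u : Fin m → ℚ) {w : ℝ} (hw : 0 ≤ w) (hu : ∀ j, w ≤ (u j : ℝ))
    (j : Fin m) : max ((radq u j : ℚ) : ℝ) w = rad (fun i => (u i : ℝ)) w j := by
  unfold radq rad
  split_ifs
  · simp [hw]
  · exact max_eq_left (hu _)

/-- Successive choice of the coordinate with the smallest threshold. -/
theorem order_exists {m : ℕ} (lam : Finset (Fin m) → Fin m → ℚ → ℝ)
    (h0 : ∀ I k q, 0 ≤ lam I k q) (h1 : ∀ I k q, lam I k q ≤ 1)
    (mono : ∀ I I' k q q', I ⊆ I' → q ≤ q' → lam I k q ≤ lam I' k q') {x : ℝ} (hx : 0 < x) :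
    ∃ (σ : Equiv.Perm (Fin m)) (u : Fin m → ℚ),
      (∀ j, ∀ k ∉ bef σ j, lam (bef σ j) (σ j) (radq u j) ≤ lam (bef σ j) k (radq u j)) ∧
      (∀ j, 0 < (u j : ℝ) ∧ (u j : ℝ) ≤ 1 ∧
        min (lam (bef σ j) (σ j) (radq u j) + x / 4) 1 ≤ u j ∧
        (u j : ℝ) ≤ lam (bef σ j) (σ j) (radq u j) + x / 2) ∧
      Monotone u ∧ Monotone (fun j => lam (bef σ j) (σ j) (radq u j)) := by
  classical
  rcases Nat.eq_zero_or_pos m with hm | hm
  · subst hm
    exact ⟨Equiv.refl _, fun j => j.elim0, fun j => j.elim0, fun j => j.elim0,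
      fun j => j.elim0, fun j => j.elim0⟩
  have : Nonempty (Fin m) := ⟨⟨0, hm⟩⟩
  have pick : ∀ p : Finset (Fin m) × ℚ, ∃ (k : Fin m) (v : ℚ), (p.1 ≠ univ → k ∉ p.1 ∧
      ∀ k' ∉ p.1, lam p.1 k p.2 ≤ lam p.1 k' p.2) ∧ ∃ r : ℚ, lam p.1 k p.2 + x / 4 < r ∧
      (r : ℝ) < lam p.1 k p.2 + x / 2 ∧ v = max p.2 (min r 1) := by
    intro p
    by_cases hp : p.1 = univ
    · obtain ⟨k⟩ := (inferInstance : Nonempty (Fin m))
      obtain ⟨r, hr1, hr2⟩ := exists_rat_btwn (show lam p.1 k p.2 + x / 4 <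
        lam p.1 k p.2 + x / 2 by linarith)
      exact ⟨k, _, fun h => absurd hp h, r, hr1, hr2, rfl⟩
    · have hne : (univ.filter fun k => k ∉ p.1).Nonempty := by
        by_contra hcon
        rw [Finset.not_nonempty_iff_eq_empty, Finset.filter_eq_empty_iff] at hcon
        refine hp (Finset.eq_univ_iff_forall.2 fun k => ?_)
        by_contra hk
        exact hcon (mem_univ k) hk
      obtain ⟨k, hk, hmin⟩ := Finset.exists_min_image _ (fun k => lam p.1 k p.2) hne
      obtain ⟨r, hr1, hr2⟩ := exists_rat_btwn (show lam p.1 k p.2 + x / 4 <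
        lam p.1 k p.2 + x / 2 by linarith)
      exact ⟨k, _, fun _ => ⟨(mem_filter.1 hk).2, fun k' hk' =>
        hmin k' (mem_filter.2 ⟨mem_univ _, hk'⟩)⟩, r, hr1, hr2, rfl⟩
  choose kk vv hk hv using pick
  obtain ⟨st, hst⟩ : ∃ st : ℕ → Finset (Fin m) × ℚ,
    st = fun n => Nat.rec ((∅ : Finset (Fin m)), (0 : ℚ))
      (fun _ p => (insert (kk p) p.1, vv p)) n := ⟨_, rfl⟩
  have st0 : st 0 = (∅, 0) := by rw [hst]; rfl
  have st1 : ∀ n, st (n + 1) = (insert (kk (st n)) (st n).1, vv (st n)) := by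
    intro n
    rw [hst]
  have hcard : ∀ n ≤ m, (st n).1.card = n := by
    intro n
    induction n with
    | zero => intro _; rw [st0]; rfl
    | succ n ih =>
      intro hn
      have ih' := ih (by omega)
      have hne : (st n).1 ≠ univ := by
        intro h
        rw [h, card_univ, Fintype.card_fin] at ih'
        omega
      rw [st1]
      simp only
      rw [card_insert_of_notMem (hk _ hne).1, ih']
  have hne : ∀ n < m, (st n).1 ≠ univ := by
    intro n hn h
    have := hcard n hn.le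
    rw [h, card_univ, Fintype.card_fin] at this
    omega
  have hmemlt : ∀ n l, l < n → kk (st l) ∈ (st n).1 := by
    intro n
    induction n with
    | zero => intro l hl; omega
    | succ n ih =>
      intro l hl
      rw [st1]
      simp only
      rcases Nat.lt_or_ge l n with h | h
      · exact mem_insert_of_mem (ih l h)
      · have : l = n := by omega
        rw [this]
        exact mem_insert_self _ _
  have hinj : Function.Injective (fun j : Fin m => kk (st j)) := by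
    intro i j hij
    simp only at hij
    rcases lt_trichotomy (i : ℕ) j with h | h | h
    · exfalso
      have := hmemlt j i h
      rw [hij] at this
      exact (hk _ (hne j j.2)).1 this
    · exact Fin.ext h
    · exfalso
      have := hmemlt i j h
      rw [← hij] at this
      exact (hk _ (hne i i.2)).1 this
  obtain ⟨σ, hσ⟩ : ∃ σ : Equiv.Perm (Fin m), ∀ j : Fin m, σ j = kk (st j) :=
    ⟨Equiv.ofBijective _ (Finite.injective_iff_bijective.1 hinj), fun _ => rfl⟩
  have hbef : ∀ j : Fin m, bef σ j = (st j).1 := by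
    intro j
    refine Finset.eq_of_subset_of_card_le ?_ ?_
    · intro k hk'
      unfold bef at hk'
      obtain ⟨l, hl, rfl⟩ := mem_image.1 hk'
      rw [hσ]
      exact hmemlt j l (mem_filter.1 hl).2
    · rw [card_bef, hcard j j.2.le]
  obtain ⟨u, hu⟩ : ∃ u : Fin m → ℚ, u = fun j : Fin m => vv (st j) := ⟨_, rfl⟩
  have hrad : ∀ j : Fin m, radq u j = (st j).2 := by
    intro j
    unfold radq
    split_ifs with h
    · rw [h, st0]
    · obtain ⟨i, hi⟩ : ∃ i, (j : ℕ) = i + 1 := ⟨(j : ℕ) - 1, by omega⟩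
      rw [hu]
      simp only [hi, Nat.add_sub_cancel]
      rw [st1]
  -- the bound of the radius
  have hrb : ∀ n < m, 0 ≤ (st n).2 ∧ ((st n).2 : ℝ) ≤ 1 ∧ ∀ k' ∉ (st n).1,
      ((st n).2 : ℝ) ≤ lam (st n).1 k' (st n).2 + x / 2 := by
    intro n
    induction n with
    | zero =>
      intro _
      rw [st0]
      refine ⟨le_rfl, by norm_num, fun k' _ => ?_⟩
      have := h0 ∅ k' 0
      simp only [Rat.cast_zero]
      linarith
    | succ n ih =>
      intro hn
      obtain ⟨a0, a1, a2⟩ := ih (by omega)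
      have hn' := hne n (by omega)
      obtain ⟨r, r1, r2, r3⟩ := hv (st n)
      have hq : (st n).2 ≤ vv (st n) := by rw [r3]; exact le_max_left _ _
      rw [st1]
      simp only
      refine ⟨a0.trans hq, ?_, fun k' hk' => ?_⟩
      · rw [r3]
        push_cast
        exact max_le a1 (min_le_right _ _)
      · have hk1 : k' ∉ (st n).1 := fun h => hk' (mem_insert_of_mem h)
        have e1 : lam (st n).1 k' (st n).2 ≤
            lam (insert (kk (st n)) (st n).1) k' (vv (st n)) :=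
          mono _ _ _ _ _ (subset_insert _ _) hq
        have e2 := (hk _ hn').2 k' hk1
        have e3 := a2 k' hk1
        rw [r3] at e1 ⊢
        push_cast
        refine max_le (by linarith) ((min_le_left _ _).trans ?_)
        linarith
  have hlamj : ∀ j : Fin m, lam (bef σ j) (σ j) (radq u j) = lam (st j).1 (kk (st j)) (st j).2 := by
    intro j
    rw [hbef, hσ, hrad]
  have hstep : ∀ n, n + 1 < m → vv (st n) ≤ vv (st (n + 1)) ∧
      lam (st n).1 (kk (st n)) (st n).2 ≤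
      lam (st (n + 1)).1 (kk (st (n + 1))) (st (n + 1)).2 := by
    intro n hn
    have hn1 := (hk _ (hne (n + 1) hn)).1
    have hsub : (st n).1 ⊆ (st (n + 1)).1 := by
      rw [st1]
      exact subset_insert _ _
    have hn2 : kk (st (n + 1)) ∉ (st n).1 := fun h => hn1 (hsub h)
    refine ⟨?_, ?_⟩
    · obtain ⟨r, r1, r2, r3⟩ := hv (st (n + 1))
      rw [r3]
      refine le_trans ?_ (le_max_left _ _)
      rw [st1]
    · refine ((hk _ (hne n (by omega))).2 _ hn2).trans ?_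
      refine mono _ _ _ _ _ hsub ?_
      · obtain ⟨r, r1, r2, r3⟩ := hv (st n)
        rw [st1]
        simp only
        rw [r3]
        exact le_max_left _ _
  have hmonn : ∀ a b : ℕ, a ≤ b → b < m → vv (st a) ≤ vv (st b) ∧
      lam (st a).1 (kk (st a)) (st a).2 ≤ lam (st b).1 (kk (st b)) (st b).2 := by
    intro a b hab
    induction b, hab using Nat.le_induction with
    | base => exact fun _ => ⟨le_rfl, le_rfl⟩
    | succ n hn ih =>
      intro h
      have h1 := ih (by omega)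
      have h2 := hstep n h
      exact ⟨h1.1.trans h2.1, h1.2.trans h2.2⟩
  refine ⟨σ, u, ?_, ?_, ?_, ?_⟩
  · intro j k hkj
    rw [hlamj, hbef, hrad]
    rw [hbef] at hkj
    exact (hk _ (hne j j.2)).2 k hkj
  · intro j
    obtain ⟨r, r1, r2, r3⟩ := hv (st j)
    obtain ⟨a0, a1, a2⟩ := hrb j j.2
    have hj := hk _ (hne j j.2)
    have e0 := h0 (st j).1 (kk (st j)) (st j).2
    rw [hlamj, hu]
    simp only
    rw [r3]
    push_cast
    have hr0 : 0 < (r : ℝ) := by linarith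
    refine ⟨?_, ?_, ?_, ?_⟩
    · exact lt_of_lt_of_le (lt_min hr0 one_pos) (le_max_right _ _)
    · exact max_le a1 (min_le_right _ _)
    · refine le_trans ?_ (le_max_right _ _)
      exact min_le_min r1.le le_rfl
    · refine max_le (a2 _ hj.1) ((min_le_left _ _).trans r2.le)
  · intro a b hab
    rw [hu]
    exact (hmonn a b hab b.2).1
  · intro a b hab
    simp only
    rw [hlamj, hlamj]
    exact (hmonn a b hab b.2).2

/-! ### The thresholds of a class -/

/-- The property with a threshold: labels of the coordinate `k` over `I`. -/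
noncomputable def tqn (m : ℕ) (I : Finset (Fin m)) (k : Fin m) (K : ℕ) (w ρ : ℝ) : Thr m where
  Q s J F A := s ≤ 0 ∨ Lb F I k K ⌊w * J⌋₊ J ⌊w * J⌋₊ ⌊max ρ w * J⌋₊ ⌊s * J⌋₊ A
  her := by
    rintro s J F A B hB (h | h)
    · exact Or.inl h
    · exact Or.inr (Lb.hered F I k K _ _ _ _ _ A B hB h)
  anti := by
    rintro s s' J F A hs (h | h)
    · exact Or.inl (hs.trans h)
    · right
      obtain ⟨V, z, z', G, h⟩ := h
      exact ⟨V, z, z', G, h.mono (Finset.Subset.refl _) le_rfl le_rfl le_rfl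
        (Nat.floor_le_floor (mul_le_mul_of_nonneg_right hs (Nat.cast_nonneg J)))⟩
  triv := Or.inl

/-- Attained up to the defect, hence below another threshold. -/
theorem tqn_le {m : ℕ} {S : PCl m} (hS : S.Ne) {I I' : Finset (Fin m)} {k k' : Fin m} {K K' : ℕ}
    {w w' ρ ρ' s s' : ℝ} (hs1 : s ≤ 1)
    (att : ∀ τ > 0, Clp S ((tqn m I k K w ρ).Q (s - τ)))
    (no : ∀ h : ℝ, s' < h → h ≤ 1 → ∃ ψ > 0, Clp S ((tqn m I' k' K' w' ρ').No h ψ))
    (imp : ∀ (J : ℕ) (F : Fam m J) (A : F.Ω → Prop) (P : ℕ),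
      Lb F I k K ⌊w * J⌋₊ J ⌊w * J⌋₊ ⌊max ρ w * J⌋₊ P A →
      Lb F I' k' K' ⌊w' * J⌋₊ J ⌊w' * J⌋₊ ⌊max ρ' w' * J⌋₊ P A) : s ≤ s' := by
  by_contra hcon
  push Not at hcon
  have h1 : (s + s') / 2 ≤ s' := by
    refine le_of_att hS no (by linarith) fun δ hδ => ?_
    refine Clp.mono (J₂ := 0) (att ((s - s') / 2) (by linarith)) ?_
    intro J _ F A hQ
    refine ⟨A, fun _ h => h, ?_, ?_⟩
    · have : Real.exp (-(δ * J)) ≤ 1 := by
        rw [Real.exp_le_one_iff]
        have : 0 ≤ δ * (J : ℝ) := by positivity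
        linarith
      calc _ ≤ 1 * Pe F.p A := mul_le_mul_of_nonneg_right this (Pe_nonneg F.isLaw A)
        _ = _ := one_mul _
    · have e : s - (s - s') / 2 = (s + s') / 2 := by ring
      rw [e] at hQ
      rcases hQ with hQ | hQ
      · exact Or.inl hQ
      · exact Or.inr (imp J F A _ hQ)
  linarith

/-- The trivial labels. -/
theorem box_thrn (m : ℕ) {w h : ℝ} (h0 : 0 < h) (hw : h < w) (hw1 : w ≤ 1) {δ : ℝ} (hδ : 0 < δ) :
    ∃ J₁ : ℕ, ∀ J ≥ J₁, ∀ (F : Fam m J) (A : F.Ω → Prop), ∃ B : F.Ω → Prop, Sub B A ∧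
      Real.exp (-(δ * J)) * Pe F.p A ≤ Pe F.p B ∧ ∀ (I : Finset (Fin m)) (k : Fin m) (K e ρ : ℕ),
        Lb F I k K e J ⌊w * J⌋₊ ρ ⌊h * J⌋₊ B := by
  obtain ⟨J₁, hJ₁⟩ := box_thr m h0 hw hw1 hδ
  refine ⟨J₁, fun J hJ F A => ?_⟩
  obtain ⟨B, hB, hP, V, z, z', G, hG⟩ := hJ₁ J hJ F A
  refine ⟨B, hB, hP, fun I k K e ρ => ?_⟩
  exact ⟨V, z, z', fun v => G v k, (hG.lb_zero (e := e) (ρ := ρ) k).mono
    (Finset.empty_subset _) (Nat.zero_le _) le_rfl le_rfl le_rfl⟩

theorem thrn_thm (m : ℕ) : ThrN m := by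
  classical
  intro S hS wp x hwp hwp1 hx
  rcases Nat.eq_zero_or_pos m with hm | hm
  · subst hm
    exact ⟨wp, Equiv.refl _, fun j => j.elim0, fun j => j.elim0, hwp, le_rfl, fun j => j.elim0,
      fun j => j.elim0, fun j => j.elim0, fun w₁ e₁ _ _ _ => ⟨S, 0, hS, fun _ _ _ _ h => h,
      fun j => j.elim0, fun j => j.elim0⟩⟩
  have : Nonempty (Fin m) := ⟨⟨0, hm⟩⟩
  -- the windows
  obtain ⟨wq, hwq⟩ : ∃ wq, wq = min wp (x / 4) := ⟨_, rfl⟩
  have hwq0 : 0 < wq := by rw [hwq]; exact lt_min hwp (by linarith)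
  have hwqp : wq ≤ wp := by rw [hwq]; exact min_le_left _ _
  have hwqx : wq ≤ x / 4 := by rw [hwq]; exact min_le_right _ _
  obtain ⟨wi, hwi⟩ : ∃ wi : ℕ → ℝ, wi = fun i : ℕ => wq / ((i : ℝ) + 1) := ⟨_, rfl⟩
  have wpos : ∀ i, 0 < wi i := by
    intro i
    rw [hwi]
    positivity
  have wanti : ∀ i i', i ≤ i' → wi i' ≤ wi i := by
    intro i i' h
    rw [hwi]
    have : (i : ℝ) ≤ i' := by exact_mod_cast h
    exact div_le_div_of_nonneg_left hwq0.le (by positivity) (by linarith)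
  have wleq : ∀ i, wi i ≤ wq := by
    intro i
    have h := wanti 0 i (Nat.zero_le i)
    have e : wi 0 = wq := by rw [hwi]; simp
    rwa [e] at h
  have wle : ∀ i, wi i ≤ wp := fun i => (wleq i).trans hwqp
  have wle1 : ∀ i, wi i ≤ 1 := fun i => (wle i).trans hwp1
  have wsmall : ∀ δ > 0, ∃ i, wi i < δ := by
    intro δ hδ
    obtain ⟨i, hi⟩ := exists_nat_gt (wq / δ)
    refine ⟨i, ?_⟩
    rw [hwi]
    rw [div_lt_iff₀ hδ] at hi
    rw [div_lt_iff₀ (by positivity)]
    nlinarith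
  -- the thresholds
  obtain ⟨f, hf⟩ := exists_surjective_nat (Finset (Fin m) × Fin m × ℕ × ℕ × ℚ)
  obtain ⟨s, S', h01, hsub, hne, hatt, hno, -⟩ := ext S hS
    (fun n => tqn m (f n).1 (f n).2.1 (f n).2.2.1 (wi (f n).2.2.2.1) (f n).2.2.2.2)
  obtain ⟨g, hg⟩ : ∃ g : Finset (Fin m) × Fin m × ℕ × ℕ × ℚ → ℕ, ∀ a, f (g a) = a :=
    ⟨Function.surjInv hf, Function.surjInv_eq hf⟩
  obtain ⟨th, hth⟩ : ∃ th : Finset (Fin m) → Fin m → ℕ → ℕ → ℚ → ℝ,
    th = fun I k K i q => s (g (I, k, K, i, q)) := ⟨_, rfl⟩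
  have th0 : ∀ I k K i q, 0 ≤ th I k K i q := fun I k K i q => by rw [hth]; exact (h01 _).1
  have th1 : ∀ I k K i q, th I k K i q ≤ 1 := fun I k K i q => by rw [hth]; exact (h01 _).2
  have att : ∀ (I : Finset (Fin m)) (k : Fin m) (K i : ℕ) (q : ℚ), ∀ τ > 0,
      Bas S' ((tqn m I k K (wi i) q).Q (th I k K i q - τ)) := by
    intro I k K i q τ hτ
    obtain ⟨n, hn⟩ : ∃ n, n = g (I, k, K, i, q) := ⟨_, rfl⟩
    have hfn : f n = (I, k, K, i, q) := by rw [hn, hg]
    have hg0 : (0 : ℝ) < (n : ℝ) + 1 := by positivity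
    refine ⟨min τ (1 / ((n : ℝ) + 1)), lt_min hτ (by positivity), 0, fun J _ F A hA => ?_⟩
    have h2 := hatt n (min τ (1 / ((n : ℝ) + 1))) J F A (by
      calc _ ≤ ((n : ℝ) + 1) * (1 / ((n : ℝ) + 1)) :=
            mul_le_mul_of_nonneg_left (min_le_right _ _) hg0.le
        _ = 1 := by field_simp) hA
    have e : th I k K i q = s n := by rw [hth, hn]
    rw [e]
    simp only [hfn] at h2
    exact (tqn m I k K (wi i) q).anti (by linarith [min_le_left τ (1 / ((n : ℝ) + 1))]) h2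
  have no : ∀ I k K i q, ∀ h : ℝ, th I k K i q < h → h ≤ 1 →
      ∃ ψ > 0, Clp S' ((tqn m I k K (wi i) q).No h ψ) := by
    intro I k K i q h h1 h2
    obtain ⟨n, hn⟩ : ∃ n, n = g (I, k, K, i, q) := ⟨_, rfl⟩
    have hfn : f n = (I, k, K, i, q) := by rw [hn, hg]
    have e : th I k K i q = s n := by rw [hth, hn]
    rw [e] at h1
    have h3 := hno n h h1 h2
    simp only [hfn] at h3
    exact h3
  -- comparison
  have cmp : ∀ (I I' : Finset (Fin m)) (k : Fin m) (K K' i i' : ℕ) (q q' : ℚ), I ⊆ I' →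
      K ≤ K' → i' ≤ i → q ≤ q' → th I k K i q ≤ th I' k K' i' q' := by
    intro I I' k K K' i i' q q' hI hK hi hq
    refine tqn_le hne (th1 I k K i q) (fun τ hτ => (att I k K i q τ hτ).clp)
      (no I' k K' i' q') ?_
    intro J F A P h
    have hJ : (0 : ℝ) ≤ J := Nat.cast_nonneg J
    have e1 : ⌊wi i * J⌋₊ ≤ ⌊wi i' * (J : ℝ)⌋₊ :=
      Nat.floor_le_floor (mul_le_mul_of_nonneg_right (wanti _ _ hi) hJ)
    have e2 : ⌊max (q : ℝ) (wi i) * J⌋₊ ≤ ⌊max (q' : ℝ) (wi i') * (J : ℝ)⌋₊ :=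
      Nat.floor_le_floor (mul_le_mul_of_nonneg_right (max_le_max (by exact_mod_cast hq)
        (wanti _ _ hi)) hJ)
    exact h.mono hI hK e1 le_rfl e1 (fl_le (wle1 i') J) e2 le_rfl
  have thlow : ∀ (I : Finset (Fin m)) (k : Fin m) (K i : ℕ) (q : ℚ), wi i ≤ th I k K i q := by
    intro I k K i q
    by_contra hcon
    push Not at hcon
    have h1 : (th I k K i q + wi i) / 2 ≤ th I k K i q := by
      refine le_of_att hne (no I k K i q) (by linarith [wle1 i]) fun δ hδ => ?_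
      obtain ⟨J₁, hJ₁⟩ := box_thrn m (w := wi i) (h := (th I k K i q + wi i) / 2)
        (by linarith [th0 I k K i q, wpos i]) (by linarith) (wle1 i) hδ
      refine Clp.of one_pos J₁ fun J hJ F A _ => ?_
      obtain ⟨B, h2, h3, h4⟩ := hJ₁ J hJ F A
      exact ⟨B, h2, h3, Or.inr (h4 I k K _ _)⟩
    linarith
  -- the suprema over the classes, the limits of the windows
  have bd1 : ∀ I k i q, BddAbove (Set.range fun K => th I k K i q) := by
    intro I k i q
    exact ⟨1, by rintro y ⟨K, rfl⟩; exact th1 I k K i q⟩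
  obtain ⟨Λ, hΛ⟩ : ∃ Λ : Finset (Fin m) → Fin m → ℕ → ℚ → ℝ,
    Λ = fun I k i q => ⨆ K, th I k K i q := ⟨_, rfl⟩
  have leΛ : ∀ I k K i q, th I k K i q ≤ Λ I k i q := by
    intro I k K i q
    rw [hΛ]
    exact le_ciSup (bd1 I k i q) K
  have Λle : ∀ I k i q b, (∀ K, th I k K i q ≤ b) → Λ I k i q ≤ b := by
    intro I k i q b h
    rw [hΛ]
    exact ciSup_le h
  have Λ0 : ∀ I k i q, 0 ≤ Λ I k i q := fun I k i q => (th0 I k 0 i q).trans (leΛ I k 0 i q)
  have Λ1 : ∀ I k i q, Λ I k i q ≤ 1 := fun I k i q => Λle I k i q 1 fun K => th1 I k K i q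
  have bd2 : ∀ I k q, BddBelow (Set.range fun i => Λ I k i q) := by
    intro I k q
    exact ⟨0, by rintro y ⟨i, rfl⟩; exact Λ0 I k i q⟩
  obtain ⟨lam, hlam⟩ : ∃ lam : Finset (Fin m) → Fin m → ℚ → ℝ,
    lam = fun I k q => ⨅ i, Λ I k i q := ⟨_, rfl⟩
  have lamle : ∀ I k i q, lam I k q ≤ Λ I k i q := by
    intro I k i q
    rw [hlam]
    exact ciInf_le (bd2 I k q) i
  have lam0 : ∀ I k q, 0 ≤ lam I k q := by
    intro I k q
    rw [hlam]
    exact le_ciInf fun i => Λ0 I k i q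
  have lam1 : ∀ I k q, lam I k q ≤ 1 := fun I k q => (lamle I k 0 q).trans (Λ1 I k 0 q)
  have lammono : ∀ I I' k q q', I ⊆ I' → q ≤ q' → lam I k q ≤ lam I' k q' := by
    intro I I' k q q' hI hq
    have : lam I' k q' = ⨅ i, Λ I' k i q' := by rw [hlam]
    rw [this]
    refine le_ciInf fun i => (lamle I k i q).trans ?_
    exact Λle I k i q _ fun K => (cmp I I' k K K i i q q' hI le_rfl le_rfl hq).trans
      (leΛ I' k K i q')
  have Λanti : ∀ I k i i' q, i ≤ i' → Λ I k i' q ≤ Λ I k i q := by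
    intro I k i i' q h
    exact Λle I k i' q _ fun K => (cmp I I k K K i' i q q (Finset.Subset.refl _) le_rfl h
      le_rfl).trans (leΛ I k K i q)
  have lamlim : ∀ I k q, ∀ δ > 0, ∃ i₀, ∀ i ≥ i₀, Λ I k i q < lam I k q + δ := by
    intro I k q δ hδ
    have h1 : ⨅ i, Λ I k i q < lam I k q + δ := by
      have : lam I k q = ⨅ i, Λ I k i q := by rw [hlam]
      rw [← this]
      linarith
    obtain ⟨i₀, hi₀⟩ := exists_lt_of_ciInf_lt h1
    exact ⟨i₀, fun i hi => (Λanti I k i₀ i q hi).trans_lt hi₀⟩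
  -- the order
  obtain ⟨σ, u, hmin, hub, humono, hlmono⟩ := order_exists lam lam0 lam1 lammono hx
  obtain ⟨L, hL⟩ : ∃ L : Fin m → ℝ, L = fun j => lam (bef σ j) (σ j) (radq u j) := ⟨_, rfl⟩
  have hLj : ∀ j, lam (bef σ j) (σ j) (radq u j) = L j := fun j => by rw [hL]
  -- the window `w₂`
  have hi2 : ∃ i₂, ∀ j, Λ (bef σ j) (σ j) i₂ (radq u j) < L j + x / 8 := by
    have : ∀ j, ∃ i₀, ∀ i ≥ i₀, Λ (bef σ j) (σ j) i (radq u j) < L j + x / 8 := by
      intro j
      rw [← hLj]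
      exact lamlim _ _ _ _ (by linarith)
    choose i₀ hi₀ using this
    exact ⟨univ.sup i₀, fun j => hi₀ j _ (Finset.le_sup (mem_univ j))⟩
  obtain ⟨i₂, hi₂⟩ := hi2
  have hwu : ∀ i j, wi i ≤ (u j : ℝ) := by
    intro i j
    obtain ⟨b1, b2, b3, b4⟩ := hub j
    refine le_trans ?_ b3
    refine le_min ?_ (wle1 i)
    have := lam0 (bef σ j) (σ j) (radq u j)
    linarith [wleq i]
  refine ⟨wi i₂, σ, fun j => max (L j - x / 4) 0, fun j => (u j : ℝ), wpos _, wle _, ?_, ?_, ?_, ?_⟩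
  · intro a b hab
    have h1 : L a ≤ L b := by
      have := hlmono hab
      simp only [hLj] at this
      exact this
    exact max_le_max (by linarith) le_rfl
  · intro a b hab
    simp only
    exact_mod_cast humono hab
  · intro j
    obtain ⟨b1, b2, b3, b4⟩ := hub j
    rw [hLj] at b3 b4
    have hl0 : 0 ≤ L j := by rw [← hLj]; exact lam0 _ _ _
    have hl1 : L j ≤ 1 := by rw [← hLj]; exact lam1 _ _ _
    refine ⟨le_max_right _ _, ?_, hwu i₂ j, ?_, b2⟩
    · refine max_le (le_trans ?_ b3) b1.le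
      exact le_min (by linarith) (by linarith)
    · have := le_max_left (L j - x / 4) 0
      linarith
  · intro w₁ e₁ hw₁ hw₁₂ he₁
    -- the window of the attained labels
    obtain ⟨i₁, hi₁⟩ := wsmall (min w₁ e₁) (lt_min hw₁ he₁)
    have hw1 : wi i₁ ≤ w₁ := hi₁.le.trans (min_le_left _ _)
    have he1 : wi i₁ ≤ e₁ := hi₁.le.trans (min_le_right _ _)
    have hw11 : w₁ ≤ 1 := hw₁₂.le.trans (wle1 i₂)
    have hKex : ∀ (j k : Fin m), ∃ K, k ∉ bef σ j →
        L j - x / 8 < th (bef σ j) k K i₁ (radq u j) := by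
      intro j k
      by_cases hkj : k ∉ bef σ j
      · have h1 : L j ≤ Λ (bef σ j) k i₁ (radq u j) := by
          rw [← hLj]
          exact (hmin j k hkj).trans (lamle _ _ _ _)
        by_contra hcon
        push Not at hcon
        have := Λle (bef σ j) k i₁ (radq u j) (L j - x / 8) fun K => (hcon K).2
        linarith
      · exact ⟨0, fun h => absurd h hkj⟩
    choose K hK using hKex
    obtain ⟨K₀, hK₀⟩ : ∃ K₀, K₀ = univ.sup fun j => univ.sup (K j) := ⟨_, rfl⟩
    have hKle : ∀ j k, K j k ≤ K₀ := by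
      intro j k
      rw [hK₀]
      exact (Finset.le_sup (f := K j) (mem_univ k)).trans
        (Finset.le_sup (f := fun j => univ.sup (K j)) (mem_univ j))
    refine ⟨S', K₀, hne, hsub, ?_, ?_⟩
    · intro j k hkj
      have h1 := hK j k hkj
      have h2 := thlow (bef σ j) k (K j k) i₁ (radq u j)
      have h3 := wpos i₁
      obtain ⟨τ, hτ⟩ : ∃ τ, τ = min (x / 8) (wi i₁ / 2) := ⟨_, rfl⟩
      have hτ0 : 0 < τ := by rw [hτ]; exact lt_min (by linarith) (by linarith)
      have hτ1 : τ ≤ x / 8 := by rw [hτ]; exact min_le_left _ _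
      have hτ2 : τ ≤ wi i₁ / 2 := by rw [hτ]; exact min_le_right _ _
      refine Bas.mono 0 (att (bef σ j) k (K j k) i₁ (radq u j) τ hτ0) ?_
      intro J _ F A hQ
      have hJ : (0 : ℝ) ≤ J := Nat.cast_nonneg J
      rcases hQ with hQ | hQ
      · exfalso
        linarith
      · refine hQ.mono (Finset.Subset.refl _) (hKle j k) ?_ le_rfl ?_ (fl_le hw11 J) ?_ ?_
        · exact Nat.floor_le_floor (mul_le_mul_of_nonneg_right he1 hJ)
        · exact Nat.floor_le_floor (mul_le_mul_of_nonneg_right hw1 hJ)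
        · rw [← radq_cast u hw₁.le (fun j => hw₁₂.le.trans (hwu i₂ j))]
          exact Nat.floor_le_floor (mul_le_mul_of_nonneg_right (max_le_max le_rfl hw1) hJ)
        · refine Nat.floor_le_floor (mul_le_mul_of_nonneg_right ?_ hJ)
          exact max_le (by linarith) (by linarith)
    · intro j K' h hh huh
      have h1 : th (bef σ j) (σ j) K' i₂ (radq u j) < (u j : ℝ) + h := by
        have a1 := leΛ (bef σ j) (σ j) K' i₂ (radq u j)
        have a2 := hi₂ j
        obtain ⟨b1, b2, b3, b4⟩ := hub j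
        rw [hLj] at b3
        rcases le_or_gt (L j + x / 4) 1 with hc | hc
        · rw [min_eq_left hc] at b3
          linarith
        · rw [min_eq_right hc.le] at b3
          linarith
      obtain ⟨ψ, hψ, hc⟩ := no (bef σ j) (σ j) K' i₂ (radq u j) ((u j : ℝ) + h) h1 huh
      refine Bas.neg (Q := fun J F A => Lb F (bef σ j) (σ j) K' ⌊wi i₂ * J⌋₊ J ⌊wi i₂ * J⌋₊
        ⌊rad (fun j => (u j : ℝ)) (wi i₂) j * J⌋₊ ⌊((u j : ℝ) + h) * J⌋₊ A)
        (fun J F => Lb.hered F _ _ _ _ _ _ _ _) ?_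
      refine Clp.mono (J₂ := 0) hc ?_
      intro J _ F A hN hG
      refine hN A (fun _ h => h) ?_ (Or.inr ?_)
      · have : Real.exp (-(ψ * J)) ≤ 1 := by
          rw [Real.exp_le_one_iff]
          have : 0 ≤ ψ * (J : ℝ) := by positivity
          linarith
        calc _ ≤ 1 * Pe F.p A := mul_le_mul_of_nonneg_right this (Pe_nonneg F.isLaw A)
          _ = _ := one_mul _
      · rw [radq_cast u (wpos i₂).le (fun j => hwu i₂ j)]
        exact hG

end Pool.GEN
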